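import Mathlib
import Pool.Agent.W611.FinH

set_option autoImplicit false

/-!
# Smooth general members from expected dimensions, in an arbitrary set of degrees
-/

namespace Pool.Agent.J6H44.PS

open MvPolynomial Pool.Agent.H248R5 Pool.Agent.H248R6 Pool.Agent.H932R7 Pool.Agent.W611

/-- The class `(d; w)` has the expected dimension at general points, over every field of
characteristic zero (the hypersurface may depend on the field). -/
def GenExp {n : ℕ} (w : Fin n → ℕ) (d : ℕ) : Prop :=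
  ∀ (L : Type) [Field L] [CharZero L], ∃ F : MvPolynomial (Fin n × Fin 2) ℚ, F ≠ 0 ∧
    ∀ P : Fin n → Fin 2 → L, aeval (fun ij : Fin n × Fin 2 => P ij.1 ij.2) F ≠ 0 →
      H932R3.ExpDim L w P d

/-- Smooth general members in all degrees of a set `G`, one hypersurface for all degrees. -/
theorem smooth_of_exp {K : Type} [Field K] [CharZero K] {n : ℕ} (hn : 0 < n) (w : Fin n → ℕ)
    (G : ℕ → Prop) (hG1 : ∀ d, G d → 1 ≤ d) (D0 : ℕ) (hD0 : ∀ d, D0 ≤ d → G d)
    (g0 : ∀ (L : Type) [Field L] [CharZero L], ∃ F : MvPolynomial (Fin n × Fin 2) ℚ, F ≠ 0 ∧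
      ∀ P : Fin n → Fin 2 → L, aeval (fun ij : Fin n × Fin 2 => P ij.1 ij.2) F ≠ 0 →
        ∀ d, G d → H932R3.ExpDim L w P d)
    (gl : ∀ e, G (e + 1) →
      (∀ i, (∑ j, (w j + 1).choose 2) + w i + 1 ≤ (e + 1 + 2).choose 2) →
      GenExp (fun i => w i - 1) e)
    (gu : ∀ k e, G (e + 1) →
      (∀ i, (∑ j, (w j + 1).choose 2) + w i + 1 ≤ (e + 1 + 2).choose 2) →
      GenExp (Function.update w k (w k + 1)) (e + 1)) :
    ∃ F : MvPolynomial (Fin n × Fin 2) ℚ, F ≠ 0 ∧ ∀ P : Fin n → Fin 2 → K,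
      aeval (fun ij : Fin n × Fin 2 => P ij.1 ij.2) F ≠ 0 → ∀ d, G d →
        Module.finrank K ↥(forms w P d) = (d + 2).choose 2 - ∑ i, (w i + 1).choose 2 ∧
        ((∀ i, (∑ j, (w j + 1).choose 2) + w i + 1 ≤ (d + 2).choose 2) →
          GeneralMember (forms w P d) (SmoothMember w P)) := by
  classical
  obtain ⟨A, hA⟩ : ∃ A, A = ∑ i, (w i + 1).choose 2 := ⟨_, rfl⟩
  obtain ⟨F0, hF0, hF0'⟩ := g0 K
  have key : ∀ d, G d → (∀ i, A + w i + 1 ≤ (d + 2).choose 2) →
      ∃ F : MvPolynomial (Fin n × Fin 2) ℚ, F ≠ 0 ∧ ∀ P : Fin n → Fin 2 → K,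
        aeval (fun ij : Fin n × Fin 2 => P ij.1 ij.2) F ≠ 0 →
          GeneralMember (forms w P d) (SmoothMember w P) := by
    intro d hd hAd
    obtain ⟨e, rfl⟩ : ∃ e, d = e + 1 := ⟨d - 1, by have := hG1 d hd; omega⟩
    have hAd' : ∀ i, (∑ j, (w j + 1).choose 2) + w i + 1 ≤ (e + 1 + 2).choose 2 := by
      rw [← hA]
      exact hAd
    have s1 : ∀ {L : Type} [Field L] {P : Fin n → Fin 2 → L} (k : Fin n),
        H932R3.ExpDim L (Function.update w k (w k + 1)) P (e + 1) →
        Function.Surjective (ev (Function.update w k (w k + 1)) P (e + 1)) := by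
      intro L _ P k h
      refine surj_of_ind ?_
      have h3 : Module.finrank L ↥(forms (Function.update w k (w k + 1)) P (e + 1)) =
        (e + 1 + 2).choose 2 -
          ∑ i, (Function.update w k (w k + 1) i + 1).choose 2 := h
      have h4 := hAd k
      rw [Aw_up, ← hA] at h3 ⊢
      omega
    have s2 : ∀ {L : Type} [Field L] {P : Fin n → Fin 2 → L},
        H932R3.ExpDim L w P (e + 1) → Function.Surjective (ev w P (e + 1)) := by
      intro L _ P h
      refine surj_of_ind ?_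
      have h3 : Module.finrank L ↥(forms w P (e + 1)) =
        (e + 1 + 2).choose 2 - ∑ i, (w i + 1).choose 2 := h
      have h4 := hAd ⟨0, hn⟩
      rw [← hA] at h3 ⊢
      omega
    have s3 : ∀ {L : Type} [Field L] {P : Fin n → Fin 2 → L},
        H932R3.ExpDim L (fun i => w i - 1) P e →
          Function.Surjective (ev (fun i => w i - 1) P e) := by
      intro L _ P h
      refine surj_of_ind ?_
      have h3 : Module.finrank L ↥(forms (fun i => w i - 1) P e) =
        (e + 2).choose 2 - ∑ i, (w i - 1 + 1).choose 2 := h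
      have h4 := hAd ⟨0, hn⟩
      have h5 := Aw_low w
      have h6 : (e + 1 + 2).choose 2 = (e + 2) + (e + 2).choose 2 := by
        rw [show e + 1 + 2 = (e + 2) + 1 from rfl, Nat.choose_succ_succ' (e + 2) 1,
          Nat.choose_one_right]
      have h7 : ∑ i, (w i - 1 + 1).choose 2 ≤ (e + 2).choose 2 := by
        rcases Nat.lt_or_ge (∑ i, w i) (e + 2) with h8 | h8
        · exact le_trans (choose_le_sum w) (Nat.choose_le_choose 2 h8.le)
        · omega
      omega
    have f1 : ∀ k : Fin n, ∃ F : MvPolynomial (Fin n × Fin 2) ℚ,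
        F ≠ 0 ∧ ∀ P : Fin n → Fin 2 → K,
          aeval (fun ij : Fin n × Fin 2 => P ij.1 ij.2) F ≠ 0 →
            H932R3.ExpDim K (Function.update w k (w k + 1)) P (e + 1) := fun k =>
      gu k e hd hAd' K
    choose G' hG' hG'' using f1
    obtain ⟨F, hF, hF'⟩ := open_main (K := K) (n := n) (e := e) (w := w)
      (fun L _ _ P hP => by
        have hne : ∀ F : MvPolynomial (Fin n × Fin 2) ℚ, F ≠ 0 →
            aeval (fun ij : Fin n × Fin 2 => P ij.1 ij.2) F ≠ 0 :=
          fun F hF h0 => hF (hP.eq_zero_of_aeval_eq_zero F h0)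
        refine ⟨fun k => ?_, ?_, ?_⟩
        · obtain ⟨F, hF, hF'⟩ := gu k e hd hAd' L
          exact s1 k (hF' P (hne F hF))
        · obtain ⟨F, hF, hF'⟩ := g0 L
          exact s2 (hF' P (hne F hF) (e + 1) hd)
        · obtain ⟨F, hF, hF'⟩ := gl e hd hAd' L
          exact s3 (hF' P (hne F hF)))
      ⟨F0 * ∏ k, G' k, mul_ne_zero hF0 (Finset.prod_ne_zero_iff.2 fun k _ => hG' k),
        fun P hP => by
          rw [map_mul, map_prod] at hP
          refine ⟨fun k => s1 k (hG'' k P ?_),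
            s2 (hF0' P (left_ne_zero_of_mul hP) (e + 1) hd)⟩
          exact Finset.prod_ne_zero_iff.1 (right_ne_zero_of_mul hP) k (Finset.mem_univ k)⟩
    exact ⟨F, hF, fun P hP => (hF' P hP).2⟩
  obtain ⟨B, hB⟩ : ∃ B, B = max (D0 + 1) (A + 1) := ⟨_, rfl⟩
  have key2 : ∀ d : Fin B, ∃ F : MvPolynomial (Fin n × Fin 2) ℚ, F ≠ 0 ∧
      ∀ P : Fin n → Fin 2 → K, aeval (fun ij : Fin n × Fin 2 => P ij.1 ij.2) F ≠ 0 →
        (G (d : ℕ) ∧ (∀ i, A + w i + 1 ≤ ((d : ℕ) + 2).choose 2)) →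
          GeneralMember (forms w P d) (SmoothMember w P) := by
    intro d
    by_cases h : G (d : ℕ) ∧ (∀ i, A + w i + 1 ≤ ((d : ℕ) + 2).choose 2)
    · obtain ⟨F, hF, hF'⟩ := key d h.1 h.2
      exact ⟨F, hF, fun P hP _ => hF' P hP⟩
    · exact ⟨1, one_ne_zero, fun P _ h' => absurd h' h⟩
  choose G' hG' hG'' using key2
  refine ⟨F0 * disc ℚ n * ∏ x, G' x, mul_ne_zero (mul_ne_zero hF0 (disc_ne ℚ n))
    (Finset.prod_ne_zero_iff.2 fun x _ => hG' x), fun P hP d hd => ?_⟩
  rw [map_mul, map_mul, map_prod] at hP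
  have hP0 := left_ne_zero_of_mul (left_ne_zero_of_mul hP)
  have hPd := inj_of_disc' (right_ne_zero_of_mul (left_ne_zero_of_mul hP))
  refine ⟨hF0' P hP0 d hd, fun hAd => ?_⟩
  rcases Nat.lt_or_ge d B with h | h
  · rw [← hA] at hAd
    exact hG'' ⟨d, h⟩ P (Finset.prod_ne_zero_iff.1 (right_ne_zero_of_mul hP) ⟨d, h⟩
      (Finset.mem_univ _)) ⟨hd, hAd⟩
  · have hd1 : 1 ≤ d := hG1 d hd
    refine general_smooth' hPd (by omega) (hF0' P hP0 (d - 1) (hD0 _ ?_)) ?_
    · rw [hB] at h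
      have := le_max_left (D0 + 1) (A + 1)
      omega
    · rw [← hA]
      have h1 : A + 1 ≤ d := by
        rw [hB] at h
        exact (le_max_right _ _).trans h
      have h2 : d ≤ (d + 1).choose 2 := by
        rw [Nat.choose_succ_succ' d 1, Nat.choose_one_right]
        exact Nat.le_add_right _ _
      omega

end Pool.Agent.J6H44.PS
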