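import Mathlib

set_option autoImplicit false

/-!
# Elimination over a domain for a family of equations
-/

namespace Pool.Agent.J6H44.PS

open MvPolynomial

/-- If `h` vanishes at every common zero of the `F j` over every field containing the domain `R`,
then there is `s ≠ 0` in `R` such that the same holds over all fields to which `R` maps with
`s` mapping to a nonzero element. -/
theorem elimF {R : Type} [CommRing R] [IsDomain R] {σ ι : Type} (F : ι → MvPolynomial σ R)
    (h : MvPolynomial σ R)
    (H : ∀ (L : Type) [Field L] (φ : R →+* L), Function.Injective φ → ∀ q : σ → L,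
      (∀ j, eval₂ φ q (F j) = 0) → eval₂ φ q h = 0) :
    ∃ s : R, s ≠ 0 ∧ ∀ (K : Type) [Field K] (ψ : R →+* K), ψ s ≠ 0 → ∀ Q : σ → K,
      (∀ j, eval₂ ψ Q (F j) = 0) → eval₂ ψ Q h = 0 := by
  classical
  let gen : Option ι → MvPolynomial (Option σ) R := fun o => match o with
    | none => 1 - X none * rename some h
    | some j => rename some (F j)
  set J : Ideal (MvPolynomial (Option σ) R) := Ideal.span (Set.range gen) with hJ
  have key : ∃ s : R, s ≠ 0 ∧ (C s : MvPolynomial (Option σ) R) ∈ J := by
    by_contra hcon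
    push Not at hcon
    let F' := FractionRing R
    let B := MvPolynomial (Option σ) R
    let BF := MvPolynomial (Option σ) F'
    have hdis : Disjoint (((nonZeroDivisors R).map (C (σ := Option σ)) : Submonoid B) : Set B)
        (J : Set B) := by
      rw [Set.disjoint_left]
      rintro _ ⟨s, hs, rfl⟩ hsJ
      exact hcon s (nonZeroDivisors.ne_zero hs) hsJ
    let _ : Algebra B BF := MvPolynomial.algebraMvPolynomial
    have hmap : ∀ x : B, algebraMap B BF x = MvPolynomial.map (algebraMap R F') x := fun x => by
      rw [MvPolynomial.algebraMap_def]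
    have hne : J.map (algebraMap B BF) ≠ ⊤ :=
      (IsLocalization.map_algebraMap_ne_top_iff_disjoint
        ((nonZeroDivisors R).map (C (σ := Option σ))) BF J).2 hdis
    obtain ⟨m, hm, hJm⟩ := Ideal.exists_le_maximal _ hne
    let _ : Field (BF ⧸ m) := Ideal.Quotient.field m
    let ψ : B →+* BF ⧸ m := (Ideal.Quotient.mk m).comp (algebraMap B BF)
    have hψ0 : ∀ x ∈ J, ψ x = 0 := by
      intro x hx
      refine Ideal.Quotient.eq_zero_iff_mem.2 (hJm ?_)
      exact Ideal.mem_map_of_mem _ hx
    let φ : R →+* BF ⧸ m := ψ.comp C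
    have hφ : φ = ((Ideal.Quotient.mk m).comp (C : F' →+* BF)).comp (algebraMap R F') := by
      refine RingHom.ext fun x => ?_
      change Ideal.Quotient.mk m (algebraMap B BF (C x)) = _
      rw [hmap, map_C]
      rfl
    have hinj : Function.Injective φ := by
      rw [hφ, RingHom.coe_comp]
      exact ((Ideal.Quotient.mk m).comp (C : F' →+* BF)).injective.comp
        (IsFractionRing.injective R F')
    let q : σ → BF ⧸ m := fun a => ψ (X (some a))
    have hψr : ∀ p : MvPolynomial σ R, ψ (rename some p) = eval₂ φ q p := by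
      intro p
      induction p using MvPolynomial.induction_on with
      | C c => rw [rename_C, eval₂_C]; rfl
      | add p q hp hq => rw [map_add, map_add, hp, hq, eval₂_add]
      | mul_X p i hp => rw [map_mul, map_mul, hp, rename_X, eval₂_mul, eval₂_X]
    have k1 : ∀ j, eval₂ φ q (F j) = 0 := by
      intro j
      rw [← hψr]
      exact hψ0 _ (Ideal.subset_span ⟨some j, rfl⟩)
    have k3 := H (BF ⧸ m) φ hinj q k1
    have h4 : ψ (1 - X none * rename some h) = 0 :=
      hψ0 _ (Ideal.subset_span ⟨none, rfl⟩)
    rw [map_sub, map_one, map_mul, hψr, k3, mul_zero, sub_zero] at h4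
    exact one_ne_zero h4
  obtain ⟨s, hs0, hs⟩ := key
  refine ⟨s, hs0, fun K _ ψ hψs Q h1 => ?_⟩
  by_contra hj
  let z : Option σ → K := fun o => match o with
    | none => (eval₂ ψ Q h)⁻¹
    | some a => Q a
  let Ψ : MvPolynomial (Option σ) R →+* K := eval₂Hom ψ z
  have hΨ : ∀ p : MvPolynomial σ R, Ψ (rename some p) = eval₂ ψ Q p := by
    intro p
    change eval₂ ψ z (rename some p) = _
    rw [eval₂_rename]
    rfl
  have hker : J ≤ RingHom.ker Ψ := by
    rw [hJ, Ideal.span_le]
    rintro _ ⟨o, rfl⟩
    rcases o with _ | j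
    · change Ψ (1 - X none * rename some h) = 0
      have : Ψ (X none) = (eval₂ ψ Q h)⁻¹ := eval₂_X _ _ _
      rw [map_sub, map_one, map_mul, hΨ, this, inv_mul_cancel₀ hj, sub_self]
    · change Ψ (rename some (F j)) = 0
      rw [hΨ, h1 j]
  have h4 : Ψ (C s) = 0 := hker hs
  have h5 : Ψ (C s) = ψ s := eval₂_C _ _ _
  exact hψs (h5 ▸ h4)

end Pool.Agent.J6H44.PS
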