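import Mathlib
import Pool.Agent.H248R6.Values

set_option autoImplicit false
set_option linter.unusedSectionVars false

/-!
# Moving a point: linear functionals vanishing on a linear system

A linear functional which vanishes on the system with multiplicities `w`, and whose values on the
derivatives of the members with respect to the coordinates of one point have rank at most one,
vanishes on the system with the multiplicity of this point lowered by one.
-/

namespace Pool.Agent.J6H44.PS

open MvPolynomial Pool.Agent.H248R5 Pool.Agent.H248R6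

variable {L : Type*} [Field L] [CharZero L]

theorem fstep3 {n : ℕ} {w : Fin n → ℕ} {P : Fin n → Fin 2 → L} {d : ℕ} {k : Fin n} {m : ℕ}
    (hk : w k = m + 1)
    (hlift : ∀ h : MvPolynomial (Fin 2) L, h.IsHomogeneous (m + 1) →
      ∃ G ∈ forms w P d, homogeneousComponent (m + 1) (tau (P k) G) = h)
    (D : Fin 2 → Derivation ℚ L L)
    (hD : ∀ a i b, D a (P i b) = if i = k ∧ b = a then 1 else 0)
    (lam : MvPolynomial (Fin 3) L →ₗ[L] L)
    (h0 : ∀ G ∈ forms w P d, lam G = 0) (c : Fin 2 → L)
    (key : ∀ G ∈ forms w P d, ∃ θ : L, ∀ a, lam (dG (D a) G) = c a * θ) :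
    ∀ H ∈ forms (Function.update w k m) P d, lam H = 0 := by
  classical
  have hex : ∀ i : ℕ, ∃ G ∈ forms w P d, i ≤ m + 1 →
      homogeneousComponent (m + 1) (tau (P k) G) = X 0 ^ i * X 1 ^ (m + 1 - i) := by
    intro i
    by_cases hi : i ≤ m + 1
    · obtain ⟨G, hG, hG'⟩ := hlift (X 0 ^ i * X 1 ^ (m + 1 - i)) (by
        have := mono_homog (L := L) i (m + 1 - i)
        rwa [Nat.add_sub_cancel' hi] at this)
      exact ⟨G, hG, fun _ => hG'⟩
    · exact ⟨0, Submodule.zero_mem _, fun h => absurd h hi⟩
  choose G hG hG' using hex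
  choose θ hθ using fun i => key (G i) (hG i)
  let H : ℕ → MvPolynomial (Fin 3) L := fun i => (-((i : L) + 1)⁻¹) • dG (D 0) (G (i + 1))
  have hHm : ∀ i, H i ∈ forms (Function.update w k m) P d := fun i =>
    Submodule.smul_mem _ _ (move hk (D 0) (hD 0) (hG (i + 1))).1
  have hne : ∀ i : ℕ, ((i : L) + 1) ≠ 0 := fun i => Nat.cast_add_one_ne_zero i
  have hHc : ∀ i, i ≤ m → homogeneousComponent m (tau (P k) (H i)) =
      X 0 ^ i * X 1 ^ (m - i) := by
    intro i hi
    have h2 := (move hk (D 0) (hD 0) (hG (i + 1))).2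
    rw [hG' (i + 1) (by omega), pd0] at h2
    have h3 : m + 1 - (i + 1) = m - i := by omega
    rw [h3] at h2
    simp only [H]
    rw [map_smul, map_smul, h2, smul_neg, ← C_mul', ← mul_assoc, ← C_mul]
    have h4 : (-((i : L) + 1)⁻¹) * ((i : L) + 1) = -1 := by
      rw [neg_mul, inv_mul_cancel₀ (hne i)]
    rw [h4, C_neg, C_1]
    ring
  -- the values
  let x : ℕ → L := fun i => lam (H i)
  have e0 : ∀ i : ℕ, ((i : L) + 1) * x i = - (c 0 * θ (i + 1)) := by
    intro i
    simp only [x, H]
    rw [map_smul, hθ (i + 1) 0, smul_eq_mul]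
    have := hne i
    field_simp
  have e1 : ∀ i : ℕ, i ≤ m → c 1 * θ i + ((m + 1 - i : ℕ) : L) * x i = 0 := by
    intro i hi
    have h2 := move hk (D 1) (hD 1) (hG i)
    obtain ⟨j, hj⟩ : ∃ j, m = i + j := ⟨m - i, by omega⟩
    have h3 : m + 1 - i = j + 1 := by omega
    have h4 : m - i = j := by omega
    have h5 : homogeneousComponent m (tau (P k) (dG (D 1) (G i) + ((j : L) + 1) • H i)) = 0 := by
      rw [map_add, map_add, map_smul, map_smul, h2.2, hG' i (by omega), hHc i hi, h3, pd1, h4,
        ← C_mul']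
      ring
    have h6 := h0 _ (back hk (Submodule.add_mem _ h2.1 (Submodule.smul_mem _ _ (hHm i))) h5)
    rw [map_add, map_smul, hθ i 1, smul_eq_mul] at h6
    rw [h3]
    push_cast
    exact h6
  have e2 : c 0 * θ 0 = 0 := by
    have h2 := move hk (D 0) (hD 0) (hG 0)
    rw [hG' 0 (by omega), pd00, neg_zero] at h2
    rw [← hθ 0 0]
    exact h0 _ (back hk h2.1 h2.2)
  have hx : ∀ i, i ≤ m → x i = 0 := by
    by_cases hc : c 0 = 0
    · intro i _
      have h2 := e0 i
      rw [hc, zero_mul, neg_zero] at h2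
      exact (mul_eq_zero.1 h2).resolve_left (hne i)
    · have h3 : ∀ i, i ≤ m → θ i = 0 ∧ x i = 0 := by
        intro i
        induction i with
        | zero =>
          intro _
          have h4 : θ 0 = 0 := (mul_eq_zero.1 e2).resolve_left hc
          have h5 := e1 0 (Nat.zero_le _)
          rw [h4, mul_zero, zero_add] at h5
          refine ⟨h4, (mul_eq_zero.1 h5).resolve_left ?_⟩
          exact Nat.cast_ne_zero.2 (by omega)
        | succ i ih =>
          intro hi
          have h4 := e0 i
          rw [(ih (by omega)).2, mul_zero] at h4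
          have h6 : θ (i + 1) = 0 := by
            have h7 : c 0 * θ (i + 1) = 0 := by linear_combination h4
            exact (mul_eq_zero.1 h7).resolve_left hc
          have h5 := e1 (i + 1) hi
          rw [h6, mul_zero, zero_add] at h5
          refine ⟨h6, (mul_eq_zero.1 h5).resolve_left ?_⟩
          exact Nat.cast_ne_zero.2 (by omega)
      exact fun i hi => (h3 i hi).2
  intro H0 hH0
  set h := homogeneousComponent m (tau (P k) H0) with hh
  have hhom : h.IsHomogeneous m := homogeneousComponent_isHomogeneous _ _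
  have hsup : ∀ s ∈ h.support, s 0 + s 1 = m := by
    intro s hs
    have := hhom (mem_support_iff.1 hs)
    rw [Finsupp.weight_apply, Finsupp.sum_fintype _ _ (fun i => by simp), Fin.sum_univ_two] at this
    simpa using this
  have hsum : homogeneousComponent m (tau (P k) (H0 - ∑ s ∈ h.support, coeff s h • H (s 0)))
      = 0 := by
    rw [map_sub, map_sub, map_sum, map_sum, ← hh, sub_eq_zero]
    conv_lhs => rw [h.as_sum]
    refine Finset.sum_congr rfl fun s hs => ?_
    have h2 := hsup s hs
    rw [map_smul, map_smul, hHc (s 0) (by omega), monomial_eq,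
      Finsupp.prod_fintype _ _ (fun i => by simp), Fin.prod_univ_two, C_mul']
    have h3 : m - s 0 = s 1 := by omega
    rw [h3]
  have h2 := h0 _ (back hk (Submodule.sub_mem _ hH0 (Submodule.sum_mem _ fun s _ =>
    Submodule.smul_mem _ _ (hHm (s 0)))) hsum)
  rw [map_sub, map_sum, sub_eq_zero] at h2
  rw [h2]
  refine Finset.sum_eq_zero fun s hs => ?_
  rw [map_smul]
  have h3 : lam (H (s 0)) = 0 := hx (s 0) (by have := hsup s hs; omega)
  rw [h3, smul_zero]

/-- A functional vanishes on the system lowered on a set of points if it vanishes on the systems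
lowered at one of the points. -/
theorem fstep4 {n : ℕ} {w : Fin n → ℕ} {P : Fin n → Fin 2 → L} {d : ℕ} {S : Finset (Fin n)}
    (hsurj : Function.Surjective (ev w P d)) (lam : MvPolynomial (Fin 3) L →ₗ[L] L)
    (h0 : ∀ G ∈ forms w P d, lam G = 0)
    (h1 : ∀ k ∈ S, ∀ H ∈ forms (Function.update w k (w k - 1)) P d, lam H = 0) :
    ∀ G ∈ forms (low w S) P d, lam G = 0 := by
  classical
  intro G hG
  obtain ⟨hG1, hG2⟩ := mem_forms.1 hG
  have hex : ∀ k, ∃ H : MvPolynomial (Fin 3) L, H.IsHomogeneous d ∧
      tau (P k) H - tau (P k) G ∈ (idealOfVars (Fin 2) L) ^ (w k) ∧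
      ∀ i, i ≠ k → tau (P i) H ∈ (idealOfVars (Fin 2) L) ^ (w i) := by
    intro k
    obtain ⟨⟨H, hH⟩, hHy⟩ := hsurj (Function.update (0 : ∀ i, Quo L (w i)) k
      (Ideal.Quotient.mk ((idealOfVars (Fin 2) L) ^ (w k)) (tau (P k) G)))
    refine ⟨H, hH, ?_, fun i hi => ?_⟩
    · have h2 := congrFun hHy k
      rw [ev_apply, Function.update_self] at h2
      exact Ideal.Quotient.eq.1 h2
    · have h2 := congrFun hHy i
      rw [ev_apply, Function.update_of_ne hi] at h2
      exact Ideal.Quotient.eq_zero_iff_mem.1 h2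
  choose H hH1 hH2 hH3 using hex
  have h2 : ∀ k ∈ S, lam (H k) = 0 := by
    intro k hk
    refine h1 k hk _ (mem_forms.2 ⟨hH1 k, fun i => ?_⟩)
    by_cases hi : i = k
    · subst hi
      rw [Function.update_self]
      have h3 := hG2 i
      unfold low at h3
      rw [if_pos hk] at h3
      have h4 := Ideal.add_mem _ h3 (Ideal.pow_le_pow_right (Nat.sub_le (w i) 1) (hH2 i))
      rwa [add_sub_cancel] at h4
    · rw [Function.update_of_ne hi]
      exact hH3 k i hi
  have h3 : lam (G - ∑ k ∈ S, H k) = 0 := by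
    refine h0 _ (mem_forms.2 ⟨hG1.sub (Submodule.sum_mem (homogeneousSubmodule (Fin 3) L d)
      fun k _ => hH1 k), fun i => ?_⟩)
    rw [map_sub, map_sum]
    by_cases hi : i ∈ S
    · rw [← Finset.add_sum_erase _ _ hi]
      have h4 : tau (P i) G - (tau (P i) (H i) + ∑ x ∈ S.erase i, tau (P i) (H x)) =
          -(tau (P i) (H i) - tau (P i) G) - ∑ x ∈ S.erase i, tau (P i) (H x) := by ring
      rw [h4]
      refine Ideal.sub_mem _ (Ideal.neg_mem_iff _ |>.2 (hH2 i)) (Ideal.sum_mem _ fun x hx => ?_)
      exact hH3 x i (Finset.ne_of_mem_erase hx).symm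
    · refine Ideal.sub_mem _ ?_ (Ideal.sum_mem _ fun x hx => ?_)
      · have h5 := hG2 i
        unfold low at h5
        rwa [if_neg hi] at h5
      · exact hH3 x i (fun h => hi (h ▸ hx))
  rw [map_sub, map_sum, Finset.sum_eq_zero h2, sub_zero] at h3
  exact h3

end Pool.Agent.J6H44.PS
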