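import Mathlib
import Pool.Agent.H248R6.Gpt
import Pool.Agent.J6H44.PS.Functional

set_option autoImplicit false
set_option linter.unusedSectionVars false

/-!
# Moving only some of the points

The general member of a linear system is smooth away from the base points, and its leading forms at
the points which are not moved have no common zeros, if the leading forms at the moved points are
arbitrary and the conditions of the system with the multiplicities of the moved points lowered by
one are independent one degree below.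
-/

namespace Pool.Agent.J6H44.PS

open MvPolynomial Pool.Agent.H248R5 Pool.Agent.H248R6

theorem low_filter {n : ℕ} (w : Fin n → ℕ) (S : Finset (Fin n)) :
    low w (S.filter fun k => 0 < w k) = low w S := by
  funext i
  unfold low
  by_cases hi : i ∈ S
  · by_cases h0 : 0 < w i
    · rw [if_pos (Finset.mem_filter.2 ⟨hi, h0⟩), if_pos hi]
    · rw [if_neg (show i ∉ S.filter (fun k => 0 < w k) from
        fun h => h0 (Finset.mem_filter.1 h).2), if_pos hi]
      omega
  · rw [if_neg (show i ∉ S.filter (fun k => 0 < w k) from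
      fun h => hi (Finset.mem_filter.1 h).1), if_neg hi]

/-- The value of the leading form as a linear functional. -/
noncomputable def lamv {L : Type*} [Field L] (p : Fin 2 → L) (m : ℕ) (v : Fin 2 → L) :
    MvPolynomial (Fin 3) L →ₗ[L] L :=
  ((aeval v : MvPolynomial (Fin 2) L →ₐ[L] L).toLinearMap.comp (homogeneousComponent m)).comp
    (tau p).toLinearMap

theorem lamv_apply {L : Type*} [Field L] (p : Fin 2 → L) (m : ℕ) (v : Fin 2 → L)
    (G : MvPolynomial (Fin 3) L) :
    lamv p m v G = eval v (homogeneousComponent m (tau p G)) := rfl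

theorem euler_zero {L : Type*} [Field L] {m : ℕ} {g : MvPolynomial (Fin 2) L}
    (hg : g.IsHomogeneous m) {v : Fin 2 → L} (hv : v ≠ 0) (h0 : eval v g = 0) :
    ∃ θ : L, eval v (pderiv 0 g) = -(θ * v 1) ∧ eval v (pderiv 1 g) = θ * v 0 := by
  have h1 := congrArg (eval v) hg.sum_X_mul_pderiv
  rw [Fin.sum_univ_two, map_add, map_mul, map_mul, eval_X, eval_X, map_nsmul, h0, smul_zero] at h1
  by_cases h2 : v 0 = 0
  · have h3 : v 1 ≠ 0 := by
      intro h3
      apply hv
      funext a
      fin_cases a
      · exact h2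
      · exact h3
    rw [h2, zero_mul, zero_add] at h1
    refine ⟨-(eval v (pderiv 0 g) / v 1), ?_, ?_⟩
    · field_simp
    · rw [h2, mul_zero]
      exact (mul_eq_zero.1 h1).resolve_left h3
  · refine ⟨eval v (pderiv 1 g) / v 0, ?_, ?_⟩
    · field_simp
      linear_combination h1
    · field_simp

/-- The leading forms at a point which is not moved have no common zero. -/
theorem at_exc {L : Type} [Field L] [CharZero L] {n : ℕ} {w : Fin n → ℕ} {P : Fin n → Fin 2 → L}
    {e : ℕ} (S : Finset (Fin n))
    (hP : AlgebraicIndependent ℚ (fun ij : Fin n × Fin 2 => P ij.1 ij.2))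
    (hsurj : Function.Surjective (ev w P (e + 1)))
    (hup : ∀ k ∈ S, Function.Surjective (ev (Function.update w k (w k + 1)) P (e + 1)))
    (hlow : Function.Surjective (ev (low w S) P e))
    (j : Fin n) (hj : j ∉ S) (hj0 : 0 < w j) (v : Fin 2 → L) (hv : v ≠ 0) :
    ∃ G ∈ forms w P (e + 1), eval v (homogeneousComponent (w j) (tau (P j) G)) ≠ 0 := by
  classical
  by_contra hcon
  push Not at hcon
  have f0 : ∀ G ∈ forms w P (e + 1), lamv (P j) (w j) v G = 0 := hcon
  have f2 : ∀ k ∈ S.filter (fun k => 0 < w k),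
      ∀ H ∈ forms (Function.update w k (w k - 1)) P (e + 1), lamv (P j) (w j) v H = 0 := by
    intro k hk
    obtain ⟨hkS, hk0⟩ := Finset.mem_filter.1 hk
    have hkj : j ≠ k := fun h => hj (h ▸ hkS)
    obtain ⟨m, hm⟩ : ∃ m, w k = m + 1 := ⟨w k - 1, by omega⟩
    choose Dk hDk using fun a : Fin 2 => exists_der _ hP (k, a)
    have hDk' : ∀ a i c, Dk a (P i c) = if i = k ∧ c = a then 1 else 0 := by
      intro a i c
      have h3 := hDk a (i, c)
      split_ifs with hic
      · exact h3.1 (by rw [hic.1, hic.2])
      · refine h3.2 (fun h4 => hic ?_)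
        exact ⟨(congrArg Prod.fst h4).symm, (congrArg Prod.snd h4).symm⟩
    have h5 := fstep3 (w := w) (P := P) (d := e + 1) hm (fun h hh => lift hm (by
      have := hup k hkS
      rwa [hm] at this) hh) Dk hDk' (lamv (P j) (w j) v) f0
      (fun a => v 1 * Dk a (v 0) - v 0 * Dk a (v 1)) (by
        intro G hG
        obtain ⟨θ, hθ0, hθ1⟩ := euler_zero
          (homogeneousComponent_isHomogeneous (w j) (tau (P j) G)) hv (f0 G hG)
        refine ⟨θ, fun a => ?_⟩
        have h2 := der_eval (Dk a) v (homogeneousComponent (w j) (tau (P j) G))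
        have h3 : eval v (homogeneousComponent (w j) (tau (P j) G)) = 0 := f0 G hG
        rw [h3, map_zero, Fin.sum_univ_two, hθ0, hθ1] at h2
        have h4 : tau (P j) (dG (Dk a) G) = dG (Dk a) (tau (P j) G) := by
          rw [tau_dG, Finset.sum_eq_zero, sub_zero]
          intro b _
          rw [hDk', if_neg (fun h => hkj h.1), C_0, zero_mul]
        rw [lamv_apply, h4, hc_dG]
        linear_combination -h2)
    have h6 : w k - 1 = m := by omega
    rw [h6]
    exact h5
  have f3 := fstep4 (w := w) (P := P) (d := e + 1) (S := S.filter (fun k => 0 < w k)) hsurj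
    (lamv (P j) (w j) v) f0 f2
  rw [low_filter] at f3
  have hlj : low w S j = w j := by
    unfold low
    rw [if_neg hj]
  obtain ⟨a, ha⟩ : ∃ a, v a ≠ 0 := by
    by_contra hcon2
    push Not at hcon2
    exact hv (funext hcon2)
  obtain ⟨G, hG, hG'⟩ := lead hlow j (by rw [hlj]; exact hj0) a
  have h7 := f3 G hG
  rw [hlj] at hG'
  rw [lamv_apply, hG', map_pow, eval_X] at h7
  exact pow_ne_zero _ ha h7

/-- The argument at a singular point of the generic member, over a field extension. -/
theorem at_pt {K L : Type} [Field K] [CharZero K] [Field L] [Algebra K L] {n : ℕ}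
    {w : Fin n → ℕ} {P : Fin n → Fin 2 → K} {e N : ℕ} (S : Finset (Fin n))
    (hP : AlgebraicIndependent ℚ (fun ij : Fin n × Fin 2 => P ij.1 ij.2))
    (b : Module.Basis (Fin N) K ↥(forms w P (e + 1)))
    (hdim : Module.finrank L ↥(forms w (fun i a => algebraMap K L (P i a)) (e + 1)) = N)
    (hsurj : Function.Surjective (ev w (fun i a => algebraMap K L (P i a)) (e + 1)))
    (hup : ∀ k ∈ S, Function.Surjective
      (ev (Function.update w k (w k + 1)) (fun i a => algebraMap K L (P i a)) (e + 1)))
    (hlow : Function.Surjective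
      (ev (low w S) (fun i a => algebraMap K L (P i a)) e))
    (t : Fin N → L) (D : Fin N → Derivation K L L)
    (hD : ∀ i j, D i (t j) = if i = j then 1 else 0) (q : Fin 3 → L) (hq : q ≠ 0)
    (hqP : ∀ i, ¬ ∃ c : L, q = c • (![algebraMap K L (P i 0), algebraMap K L (P i 1), 1] :
      Fin 3 → L))
    (h1 : ∑ i, t i * aeval q (b i : MvPolynomial (Fin 3) K) = 0)
    (h2 : ∀ a, ∑ i, t i * aeval q (pderiv a (b i : MvPolynomial (Fin 3) K)) = 0) : False := by
  classical
  have hchar : CharZero L := charZero_of_injective_algebraMap (algebraMap K L).injective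
  set PL : Fin n → Fin 2 → L := fun i a => algebraMap K L (P i a) with hPL
  have hPLi : AlgebraicIndependent ℚ (fun ij : Fin n × Fin 2 => PL ij.1 ij.2) :=
    hP.map' (f := (algebraMap K L).toRatAlgHom) (algebraMap K L).injective
  have hbq : ∀ j, aeval q (b j : MvPolynomial (Fin 3) K) = 0 :=
    fun j => core (fun i => (b i : MvPolynomial (Fin 3) K)) t D hD q h1 h2 j
  obtain ⟨η, hη⟩ := rank_one (fun i => (b i : MvPolynomial (Fin 3) K))
    (fun i => (mem_forms.1 (b i).2).1) t D hD q hq h2 hbq
  choose θ hθ using hη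
  have ev0 : ∀ p : MvPolynomial (Fin 3) K, eval q (MvPolynomial.map (algebraMap K L) p) =
      aeval q p := fun p => by rw [eval_map, aeval_def]
  have f0 : ∀ G ∈ forms w PL (e + 1), eval q G = 0 := by
    intro G hG
    obtain ⟨c, rfl⟩ := span_forms b hdim hG
    rw [map_sum]
    refine Finset.sum_eq_zero fun j _ => ?_
    rw [smul_eval, ev0, hbq, mul_zero]
  have f1 : ∀ G ∈ forms w PL (e + 1), ∃ ϑ : L, ∀ a, eval q (pderiv a G) = ϑ * η a := by
    intro G hG
    obtain ⟨c, rfl⟩ := span_forms b hdim hG
    refine ⟨∑ j, c j * θ j, fun a => ?_⟩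
    rw [map_sum, map_sum, Finset.sum_mul]
    refine Finset.sum_congr rfl fun j _ => ?_
    rw [Derivation.map_smul, smul_eval, pderiv_map, ev0, hθ]
    ring
  have f2 : ∀ k ∈ S.filter (fun k => 0 < w k),
      ∀ H ∈ forms (Function.update w k (w k - 1)) PL (e + 1), eval q H = 0 := by
    intro k hk
    obtain ⟨hkS, hk0⟩ := Finset.mem_filter.1 hk
    obtain ⟨m, hm⟩ : ∃ m, w k = m + 1 := ⟨w k - 1, by omega⟩
    choose Dk hDk using fun a : Fin 2 => exists_der _ hPLi (k, a)
    have hDk' : ∀ a i c, Dk a (PL i c) = if i = k ∧ c = a then 1 else 0 := by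
      intro a i c
      have h3 := hDk a (i, c)
      split_ifs with hic
      · exact h3.1 (by rw [hic.1, hic.2])
      · refine h3.2 (fun h4 => hic ?_)
        exact ⟨(congrArg Prod.fst h4).symm, (congrArg Prod.snd h4).symm⟩
    have h5 := step3 (w := w) (P := PL) (d := e + 1) hm (fun h hh => lift hm (by
      have := hup k hkS
      rwa [hm] at this) hh) Dk hDk' q f0 η f1
    have h6 : w k - 1 = m := by omega
    rw [h6]
    exact h5
  have f3 := step4 (w := w) (P := PL) (d := e + 1) (S := S.filter (fun k => 0 < w k)) hsurj q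
    f0 f2
  rw [low_filter] at f3
  obtain ⟨G, hG, hG'⟩ := bpf hlow q hq (fun i _ => hqP i)
  exact hG' (f3 G hG)

/-- The product of coordinate differences vanishes at the singular points of the universal
member. -/
theorem sing_aux' {n e N : ℕ} {w : Fin n → ℕ} (S : Finset (Fin n))
    (b : Module.Basis (Fin N) (PtField n) ↥(forms w (gen n) (e + 1)))
    (β : Fin N → MvPolynomial (Fin 3) (PtRing n))
    (hβ : ∀ j, MvPolynomial.map (algebraMap (PtRing n) (PtField n)) (β j) =
      (b j : MvPolynomial (Fin 3) (PtField n))) (c : Fin 3) (α : Fin n → Fin 2)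
    (L : Type) [Field L] [CharZero L] [Algebra (PtField n) L]
    (φ : MvPolynomial (Fin N) (PtRing n) →+* L)
    (hφ : Function.Injective φ)
    (hA : ∀ a, algebraMap (PtField n) L (algebraMap (PtRing n) (PtField n) a) = φ (C a))
    (hdim : Module.finrank L ↥(forms w (fun i a => algebraMap (PtField n) L (gen n i a))
      (e + 1)) = N)
    (g1 : ∀ k ∈ S, Function.Surjective (ev (Function.update w k (w k + 1))
      (fun i a => algebraMap (PtField n) L (gen n i a)) (e + 1)))
    (g2 : Function.Surjective (ev w (fun i a => algebraMap (PtField n) L (gen n i a)) (e + 1)))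
    (g3 : Function.Surjective
      (ev (low w S) (fun i a => algebraMap (PtField n) L (gen n i a)) e))
    (q : Fin 3 → L) (h1 : eval₂ φ q (univG β) = 0)
    (h2 : ∀ a, eval₂ φ q (pderiv a (univG β)) = 0) : eval₂ φ q (univh n N c α) = 0 := by
  classical
  choose D hD using exists_derK φ hφ hA
  have hcomp : φ.comp (C : PtRing n →+* MvPolynomial (Fin N) (PtRing n)) =
      (algebraMap (PtField n) L).comp (algebraMap (PtRing n) (PtField n)) :=
    RingHom.ext fun a => (hA a).symm
  have hev : ∀ p : MvPolynomial (Fin 3) (PtRing n),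
      eval₂ (φ.comp (C : PtRing n →+* MvPolynomial (Fin N) (PtRing n))) q p =
      aeval q (MvPolynomial.map (algebraMap (PtRing n) (PtField n)) p) := by
    intro p
    rw [aeval_def, eval₂_map, hcomp]
  rw [eval_univG] at h1
  by_contra hne
  have hval : eval₂ φ q (univh n N c α) = q c * ∏ i, (q (Fin.castSucc (α i)) -
      algebraMap (PtField n) L (gen n i (α i)) * q 2) := by
    unfold univh
    have := map_mul (eval₂Hom φ q) (X c) (∏ i, (X (Fin.castSucc (α i)) - C (C (X (i, α i))) * X 2))
    rw [map_prod] at this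
    refine this.trans ?_
    congr 1
    · exact eval₂_X _ _ _
    · refine Finset.prod_congr rfl fun i _ => ?_
      rw [map_sub, map_mul]
      have a1 : (eval₂Hom φ q) (X (Fin.castSucc (α i))) = q (Fin.castSucc (α i)) :=
        eval₂_X _ _ _
      have a2 : (eval₂Hom φ q) (X 2) = q 2 := eval₂_X _ _ _
      have a3 : (eval₂Hom φ q) (C (C (X (i, α i)))) =
          algebraMap (PtField n) L (gen n i (α i)) := (eval₂_C _ _ _).trans (hA _).symm
      rw [a1, a2, a3]
  rw [hval] at hne
  have hne1 := left_ne_zero_of_mul hne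
  have hne2 := fun i => Finset.prod_ne_zero_iff.1 (right_ne_zero_of_mul hne) i
    (Finset.mem_univ i)
  have k1 : ∑ j, φ (X j) * aeval q (b j : MvPolynomial (Fin 3) (PtField n)) = 0 := by
    rw [← h1]
    exact Finset.sum_congr rfl fun j _ => by rw [hev, hβ]
  have k2 : ∀ a, ∑ j, φ (X j) * aeval q (pderiv a (b j : MvPolynomial (Fin 3) (PtField n))) =
      0 := by
    intro a
    have h3 := h2 a
    rw [eval_pderiv_univG] at h3
    rw [← h3]
    exact Finset.sum_congr rfl fun j _ => by rw [hev, ← pderiv_map, hβ]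
  have k3 : q ≠ 0 := fun h => hne1 (by rw [h]; rfl)
  refine at_pt S (gen_ind n) b hdim g2 g1 g3 (fun j => φ (X j)) D hD q k3 (fun i => ?_) k1 k2
  rintro ⟨s, hs⟩
  apply hne2 i
  rw [hs]
  generalize α i = a
  fin_cases a
  · simp
    ring
  · simp
    ring

end Pool.Agent.J6H44.PS
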