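import Mathlib
import Pool.Agent.H248R6.Dim
import Pool.Agent.J6H44.PS.Pt
import Pool.Agent.J6H44.PS.ElimF

set_option autoImplicit false
set_option linter.unusedSectionVars false

/-!
# The leading forms at the points which are not moved, for general points
-/

namespace Pool.Agent.J6H44.PS

open MvPolynomial Pool.Agent.H248R5 Pool.Agent.H248R6

theorem map_hc {A K : Type*} [CommSemiring A] [CommSemiring K] (f : A →+* K) {σ : Type*} (k : ℕ)
    (p : MvPolynomial σ A) :
    MvPolynomial.map f (homogeneousComponent k p) = homogeneousComponent k (MvPolynomial.map f p) := by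
  classical
  ext s
  rw [coeff_map, coeff_homogeneousComponent, coeff_homogeneousComponent, coeff_map]
  split_ifs
  · rfl
  · exact map_zero f

/-- The local leading form of the `j`th member of the universal system. -/
noncomputable def locF {n N : ℕ} (w : Fin n → ℕ) (β : Fin N → MvPolynomial (Fin 3) (PtRing n))
    (i : Fin n) (j : Fin N) : MvPolynomial (Fin 2) (PtRing n) :=
  homogeneousComponent (w i) (tauR (fun c => (X (i, c) : PtRing n)) (β j))

theorem eval_locF {n N : ℕ} (w : Fin n → ℕ) (β : Fin N → MvPolynomial (Fin 3) (PtRing n))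
    (i : Fin n) (j : Fin N) {K : Type*} [Field K] (ψ : PtRing n →+* K) (v : Fin 2 → K) :
    eval₂ ψ v (locF w β i j) = eval v (homogeneousComponent (w i)
      (tau (fun c => ψ (X (i, c))) (MvPolynomial.map ψ (β j)))) := by
  unfold locF
  rw [← eval_map, map_hc, map_tauR]

theorem exc_aux {n e N : ℕ} {w : Fin n → ℕ} (S : Finset (Fin n))
    (b : Module.Basis (Fin N) (PtField n) ↥(forms w (gen n) (e + 1)))
    (β : Fin N → MvPolynomial (Fin 3) (PtRing n))
    (hβ : ∀ j, MvPolynomial.map (algebraMap (PtRing n) (PtField n)) (β j) =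
      (b j : MvPolynomial (Fin 3) (PtField n)))
    (i : Fin n) (hi : i ∉ S) (hi0 : 0 < w i)
    (L : Type) [Field L] [CharZero L] [Algebra (PtField n) L]
    (φ : PtRing n →+* L)
    (hA : ∀ x, algebraMap (PtField n) L (algebraMap (PtRing n) (PtField n) x) = φ x)
    (hPL : AlgebraicIndependent ℚ
          (fun ij : Fin n × Fin 2 => (fun i a => algebraMap (PtField n) L (gen n i a)) ij.1 ij.2))
    (hdim : Module.finrank L ↥(forms w (fun i a => algebraMap (PtField n) L (gen n i a))
      (e + 1)) = N)
    (g1 : ∀ k ∈ S, Function.Surjective (ev (Function.update w k (w k + 1))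
      (fun i a => algebraMap (PtField n) L (gen n i a)) (e + 1)))
    (g2 : Function.Surjective (ev w (fun i a => algebraMap (PtField n) L (gen n i a)) (e + 1)))
    (g3 : Function.Surjective
      (ev (low w S) (fun i a => algebraMap (PtField n) L (gen n i a)) e))
    (v : Fin 2 → L) (hv : v ≠ 0) (h1 : ∀ j, eval₂ φ v (locF w β i j) = 0) : False := by
  classical
  obtain ⟨G, hG, hG'⟩ := at_exc (w := w) (e := e)
    (P := fun i a => algebraMap (PtField n) L (gen n i a)) S hPL g2 g1 g3 i hi hi0 v hv
  apply hG'
  obtain ⟨c, rfl⟩ := span_forms b hdim hG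
  rw [map_sum, map_sum, map_sum]
  refine Finset.sum_eq_zero fun j _ => ?_
  rw [map_smul, map_smul, smul_eval]
  have h2 : MvPolynomial.map (algebraMap (PtField n) L)
      (b j : MvPolynomial (Fin 3) (PtField n)) = MvPolynomial.map φ (β j) := by
    have h0 : (algebraMap (PtField n) L).comp (algebraMap (PtRing n) (PtField n)) = φ :=
      RingHom.ext hA
    rw [← hβ, MvPolynomial.map_map, h0]
  have h3 : (fun c => algebraMap (PtField n) L (gen n i c)) = fun c => φ (X (i, c)) := by
    funext c
    exact hA _
  have h4 := h1 j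
  rw [eval_locF, ← h3, ← h2] at h4
  rw [h4, mul_zero]

theorem exc_elim {n e N : ℕ} {w : Fin n → ℕ} (S : Finset (Fin n))
    (b : Module.Basis (Fin N) (PtField n) ↥(forms w (gen n) (e + 1)))
    (β : Fin N → MvPolynomial (Fin 3) (PtRing n))
    (hβ : ∀ j, MvPolynomial.map (algebraMap (PtRing n) (PtField n)) (β j) =
      (b j : MvPolynomial (Fin 3) (PtField n)))
    (hgen : ∀ (L : Type) [Field L] [CharZero L] (P : Fin n → Fin 2 → L),
      AlgebraicIndependent ℚ (fun ij : Fin n × Fin 2 => P ij.1 ij.2) →
      (∀ k ∈ S, Function.Surjective (ev (Function.update w k (w k + 1)) P (e + 1))) ∧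
      Function.Surjective (ev w P (e + 1)) ∧ Function.Surjective (ev (low w S) P e))
    (i : Fin n) (hi : i ∉ S) (hi0 : 0 < w i) (a : Fin 2) :
    ∃ s : PtRing n, s ≠ 0 ∧ ∀ (K : Type) [Field K] (ψ : PtRing n →+* K), ψ s ≠ 0 →
      ∀ v : Fin 2 → K, (∀ j, eval₂ ψ v (locF w β i j) = 0) → v a = 0 := by
  classical
  obtain ⟨s, hs0, hs⟩ := elimF (locF w β i) (X a : MvPolynomial (Fin 2) (PtRing n)) (by
      intro L _ φ hφ v h1
      have hchar : CharZero L := charZero_of_injective_ringHom hφ
      let _ : Algebra (PtField n) L := (IsFractionRing.lift hφ).toAlgebra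
      have hA : ∀ x, algebraMap (PtField n) L (algebraMap (PtRing n) (PtField n) x) = φ x :=
        fun x => IsFractionRing.lift_algebraMap hφ x
      have hPL : AlgebraicIndependent ℚ
          (fun ij : Fin n × Fin 2 =>
            (fun i a => algebraMap (PtField n) L (gen n i a)) ij.1 ij.2) :=
        (gen_ind n).map' (f := (algebraMap (PtField n) L).toRatAlgHom)
          (algebraMap (PtField n) L).injective
      obtain ⟨g1, g2, g3⟩ := hgen L (fun i a => algebraMap (PtField n) L (gen n i a)) hPL
      obtain ⟨-, g2', -⟩ := hgen (PtField n) (gen n) (gen_ind n)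
      have hN : Module.finrank (PtField n) ↥(forms w (gen n) (e + 1)) = N := by
        rw [Module.finrank_eq_card_basis b, Fintype.card_fin]
      have hdim : Module.finrank L ↥(forms w (fun i a => algebraMap (PtField n) L (gen n i a))
          (e + 1)) = N := by
        have e1 := finrank_of_surj g2
        have e2 := finrank_of_surj g2'
        omega
      rw [eval₂_X]
      by_contra hva
      exact exc_aux S b β hβ i hi hi0 L φ hA hPL hdim g1 g2 g3 v
        (fun h0 => hva (by rw [h0]; rfl)) h1)
  refine ⟨s, hs0, fun K _ ψ hψ v hv => ?_⟩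
  have h1 := hs K ψ hψ v hv
  rwa [eval₂_X] at h1

end Pool.Agent.J6H44.PS
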