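import Mathlib
import Pool.Agent.H248R6.Open
import Pool.Agent.J6H44.PS.Exc

set_option autoImplicit false
set_option linter.unusedSectionVars false

/-!
# Smoothness of the general member for general points, moving only some of the points
-/

namespace Pool.Agent.J6H44.PS

open MvPolynomial Pool.Agent.H248R5 Pool.Agent.H248R6

/-- Assembling the smoothness of the general member. -/
theorem assemble' {K : Type*} [Field K] [CharZero K] {n : ℕ} {w : Fin n → ℕ}
    {P : Fin n → Fin 2 → K} {d : ℕ}
    (hexc : ∀ i, ∀ v : Fin 2 → K, v ≠ 0 →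
      ∃ G ∈ forms w P d, eval v (homogeneousComponent (w i) (tau (P i) G)) ≠ 0)
    (hnot : GeneralMember (forms w P d) (fun G => ∀ Q : Fin 3 → K, Q ≠ 0 → eval Q G = 0 →
      (∀ a, eval Q (pderiv a G) = 0) → ∃ i, ∃ c : K, Q = c • (![P i 0, P i 1, 1] : Fin 3 → K))) :
    GeneralMember (forms w P d) (SmoothMember w P) := by
  classical
  intro N b
  obtain ⟨Φ0, hΦ0, h0⟩ := hnot N b
  have hb := fun i => bertini (fun j => homogeneousComponent (w i)
    (tau (P i) (b j : MvPolynomial (Fin 3) K)))
  choose Φ hΦ hΦ' using hb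
  refine ⟨Φ0 * ∏ i, Φ i, mul_ne_zero hΦ0 (Finset.prod_ne_zero_iff.2 fun i _ => hΦ i),
    fun t ht => ?_⟩
  rw [map_mul, map_prod] at ht
  have hti : ∀ i, eval t (Φ i) ≠ 0 := fun i =>
    Finset.prod_ne_zero_iff.1 (right_ne_zero_of_mul ht) i (Finset.mem_univ i)
  have hnotP := h0 t (left_ne_zero_of_mul ht)
  set G := ∑ j, t j • (b j : MvPolynomial (Fin 3) K) with hG
  have hGV : G ∈ forms w P d := by
    rw [hG]
    exact Submodule.sum_mem _ fun j _ => Submodule.smul_mem _ _ (b j).2
  have hlead : ∀ i, ∀ v : Fin 2 → K, v ≠ 0 →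
      eval v (homogeneousComponent (w i) (tau (P i) G)) = 0 →
      ∃ a, eval v (pderiv a (homogeneousComponent (w i) (tau (P i) G))) ≠ 0 := by
    intro i v hv hv1
    by_contra hcon
    push Not at hcon
    have hsum : homogeneousComponent (w i) (tau (P i) G) =
        ∑ j, t j • homogeneousComponent (w i) (tau (P i) (b j : MvPolynomial (Fin 3) K)) := by
      rw [hG, map_sum, map_sum]
      refine Finset.sum_congr rfl fun j _ => ?_
      rw [map_smul, map_smul]
    rw [hsum] at hv1 hcon
    have h3 := hΦ' i t (hti i) v hv1 hcon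
    obtain ⟨H, hH, hH'⟩ := hexc i v hv
    obtain ⟨c, hc⟩ := exists_comb b hH
    apply hH'
    rw [hc, map_sum, map_sum, map_sum]
    refine Finset.sum_eq_zero fun j _ => ?_
    rw [map_smul, map_smul, smul_eval, h3 j, mul_zero]
  refine ⟨fun Q hQ hQ1 hQ2 => ?_, fun i => ⟨?_, hlead i⟩⟩
  · obtain ⟨i, c, hc⟩ := hnotP Q hQ hQ1 hQ2
    refine ⟨i, Nat.pos_of_ne_zero fun hw0 => ?_, c, hc⟩
    have h5 := hlead i (fun _ => 1) (fun h => one_ne_zero (congrFun h 0))
    rw [hw0] at h5
    have h6 : homogeneousComponent 0 (tau (P i) G) = C (eval ![P i 0, P i 1, 1] G) := by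
      rw [homogeneousComponent_zero]
      congr 1
      exact constCoeff_tau (P i) G
    rw [h6] at h5
    have hc0 : c ≠ 0 := by
      rintro rfl
      rw [zero_smul] at hc
      exact hQ hc
    have h7 : eval (![P i 0, P i 1, 1] : Fin 3 → K) G = 0 := by
      have h9 : eval Q G = c ^ d * eval (![P i 0, P i 1, 1] : Fin 3 → K) G := by
        rw [hc]
        have h10 := (mem_forms.1 hGV).1
        rw [eval_eq, eval_eq, Finset.mul_sum]
        refine Finset.sum_congr rfl fun s hs => ?_
        have h11 : s 0 + s 1 + s 2 = d :=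
          H932R2.sum_eq_of_homog h10 (mem_support_iff.1 hs)
        simp only [Pi.smul_apply, smul_eq_mul, mul_pow, Finset.prod_mul_distrib]
        have h12 : ∑ i ∈ s.support, s i = d := by
          rw [Finset.sum_subset (Finset.subset_univ s.support)
            (fun i _ hi => Finsupp.notMem_support_iff.1 hi), Fin.sum_univ_three, h11]
        rw [Finset.prod_pow_eq_pow_sum, h12]
        ring
      rw [hQ1] at h9
      exact (mul_eq_zero.1 h9.symm).resolve_left (pow_ne_zero _ hc0)
    rw [h7, C_0, map_zero] at h5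
    obtain ⟨a, ha⟩ := h5 rfl
    exact ha (by simp)
  · exact (mem_pow_idealOfVars_iff' _ _).1 ((mem_forms.1 hGV).2 i)

/-- Every leading form is attained at a moved point. -/
theorem exc_of_up {K : Type*} [Field K] [CharZero K] {n : ℕ} {w : Fin n → ℕ}
    {P : Fin n → Fin 2 → K} {d : ℕ} {i : Fin n}
    (h : Function.Surjective (ev (Function.update w i (w i + 1)) P d)) (v : Fin 2 → K)
    (hv : v ≠ 0) :
    ∃ G ∈ forms w P d, eval v (homogeneousComponent (w i) (tau (P i) G)) ≠ 0 := by
  obtain ⟨a, ha⟩ : ∃ a, v a ≠ 0 := by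
    by_contra hcon2
    push Not at hcon2
    exact hv (funext hcon2)
  obtain ⟨H, hH, hH'⟩ := lift (L := K) (w := w) (P := P) (d := d) (k := i) rfl h
    (h := X a ^ (w i)) (by
      have := (isHomogeneous_X K a).pow (w i)
      rwa [one_mul] at this)
  refine ⟨H, hH, ?_⟩
  rw [hH', map_pow, eval_X]
  exact pow_ne_zero _ ha

/-- Smoothness of the general member for all points outside a hypersurface, moving only the points
of a set `S`. -/
theorem open_main' {K : Type} [Field K] [CharZero K] {n e : ℕ} {w : Fin n → ℕ}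
    (S : Finset (Fin n)) (hS : ∀ i ∉ S, 0 < w i)
    (hgen : ∀ (L : Type) [Field L] [CharZero L] (P : Fin n → Fin 2 → L),
      AlgebraicIndependent ℚ (fun ij : Fin n × Fin 2 => P ij.1 ij.2) →
      (∀ k ∈ S, Function.Surjective (ev (Function.update w k (w k + 1)) P (e + 1))) ∧
      Function.Surjective (ev w P (e + 1)) ∧ Function.Surjective (ev (low w S) P e))
    (hopen : ∃ F : MvPolynomial (Fin n × Fin 2) ℚ, F ≠ 0 ∧ ∀ P : Fin n → Fin 2 → K,
      aeval (fun ij : Fin n × Fin 2 => P ij.1 ij.2) F ≠ 0 →
      (∀ k ∈ S, Function.Surjective (ev (Function.update w k (w k + 1)) P (e + 1))) ∧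
      Function.Surjective (ev w P (e + 1))) :
    ∃ F : MvPolynomial (Fin n × Fin 2) ℚ, F ≠ 0 ∧ ∀ P : Fin n → Fin 2 → K,
      aeval (fun ij : Fin n × Fin 2 => P ij.1 ij.2) F ≠ 0 →
      Module.finrank K ↥(forms w P (e + 1)) + ∑ i, (w i + 1).choose 2 = (e + 3).choose 2 ∧
        GeneralMember (forms w P (e + 1)) (SmoothMember w P) := by
  classical
  obtain ⟨F2, hF2, hF2'⟩ := hopen
  obtain ⟨N, b, β, hβ⟩ := exists_universal n w (e + 1)
  -- elimination
  have hel := fun cα : Fin 3 × (Fin n → Fin 2) =>
    elimR (univG β) (univh n N cα.1 cα.2) (by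
      intro L _ φ hφ q h1 h2
      have hchar : CharZero L := charZero_of_injective_ringHom hφ
      have hφA : Function.Injective
        (φ.comp (C : PtRing n →+* MvPolynomial (Fin N) (PtRing n))) :=
        hφ.comp (C_injective _ _)
      let _ : Algebra (PtField n) L := (IsFractionRing.lift hφA).toAlgebra
      have hA : ∀ a, algebraMap (PtField n) L (algebraMap (PtRing n) (PtField n) a) = φ (C a) :=
        fun a => IsFractionRing.lift_algebraMap hφA a
      have hPL : AlgebraicIndependent ℚ
          (fun ij : Fin n × Fin 2 =>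
            (fun i a => algebraMap (PtField n) L (gen n i a)) ij.1 ij.2) := by
        have h3 := (vars_ind φ hφ).comp Sum.inr Sum.inr_injective
        have h4 : (fun ij : Fin n × Fin 2 =>
            (fun i a => algebraMap (PtField n) L (gen n i a)) ij.1 ij.2) =
            (Sum.elim (fun j => φ (X j)) (fun ij => φ (C (X ij))) :
              Fin N ⊕ (Fin n × Fin 2) → L) ∘ Sum.inr := by
          funext ij
          exact hA _
        rw [h4]
        exact h3
      obtain ⟨g1, g2, g3⟩ := hgen L (fun i a => algebraMap (PtField n) L (gen n i a)) hPL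
      obtain ⟨-, g2', -⟩ := hgen (PtField n) (gen n) (gen_ind n)
      have hN : Module.finrank (PtField n) ↥(forms w (gen n) (e + 1)) = N := by
        rw [Module.finrank_eq_card_basis b, Fintype.card_fin]
      have hdim : Module.finrank L ↥(forms w (fun i a => algebraMap (PtField n) L (gen n i a))
          (e + 1)) = N := by
        have e1 := finrank_of_surj g2
        have e2 := finrank_of_surj g2'
        omega
      exact sing_aux' S b β hβ cα.1 cα.2 L φ hφ hA hdim g1 g2 g3 q h1 h2)
  choose s hs0 hs using hel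
  have hS0 : (∏ cα, s cα) ≠ 0 := Finset.prod_ne_zero_iff.2 fun i _ => hs0 i
  obtain ⟨μ, hμ⟩ : ∃ μ, coeff μ (∏ cα, s cα) ≠ 0 := by
    by_contra hcon
    push Not at hcon
    exact hS0 (MvPolynomial.ext _ _ fun μ => by rw [hcon μ, coeff_zero])
  -- the leading forms at the points which are not moved
  have hel2 : ∀ ia : Fin n × Fin 2, ∃ s : PtRing n, s ≠ 0 ∧ (ia.1 ∉ S →
      ∀ (K : Type) [Field K] (ψ : PtRing n →+* K), ψ s ≠ 0 →
      ∀ v : Fin 2 → K, (∀ j, eval₂ ψ v (locF w β ia.1 j) = 0) → v ia.2 = 0) := by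
    intro ia
    by_cases hi : ia.1 ∈ S
    · exact ⟨1, one_ne_zero, fun h => absurd hi h⟩
    · obtain ⟨s, h1, h2⟩ := exc_elim S b β hβ hgen ia.1 hi (hS _ hi) ia.2
      exact ⟨s, h1, fun _ => h2⟩
  choose s2 hs20 hs2 using hel2
  -- a nonzero minor
  have hli0 : LinearIndependent (PtField n) (fun j => (b j : MvPolynomial (Fin 3) (PtField n))) :=
    b.linearIndependent.map' (Submodule.subtype _) (Submodule.ker_subtype _)
  obtain ⟨ν, hν⟩ := exists_minor _ hli0
  set F1 : PtRing n := Matrix.det (Matrix.of fun i j => coeff (ν i) (β j)) with hF1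
  have hF10 : F1 ≠ 0 := by
    intro h0
    apply hν
    have h1 := congrArg (algebraMap (PtRing n) (PtField n)) h0
    rw [hF1, RingHom.map_det, map_zero] at h1
    rw [← h1]
    congr 1
    ext i j
    rw [RingHom.mapMatrix_apply, Matrix.map_apply, Matrix.of_apply, Matrix.of_apply, ← hβ,
      coeff_map]
  refine ⟨F1 * F2 * coeff μ (∏ cα, s cα) * ∏ ia, s2 ia,
    mul_ne_zero (mul_ne_zero (mul_ne_zero hF10 hF2) hμ)
      (Finset.prod_ne_zero_iff.2 fun ia _ => hs20 ia), fun P hP => ?_⟩
  rw [map_mul, map_mul, map_mul] at hP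
  have hP4 := right_ne_zero_of_mul hP
  replace hP := left_ne_zero_of_mul hP
  have hP1 := left_ne_zero_of_mul (left_ne_zero_of_mul hP)
  have hP2 := right_ne_zero_of_mul (left_ne_zero_of_mul hP)
  have hP3 := right_ne_zero_of_mul hP
  obtain ⟨g1, g2⟩ := hF2' P hP2
  have hfr := finrank_of_surj g2
  refine ⟨hfr, ?_⟩
  let f : PtRing n →+* K :=
    ((aeval (fun ij : Fin n × Fin 2 => P ij.1 ij.2) : PtRing n →ₐ[ℚ] K) : PtRing n →+* K)
  have hfX : ∀ i a, f (X (i, a)) = P i a := fun i a => aeval_X _ _
  have hfP : (fun i a => f (X (i, a))) = P := by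
    funext i a
    exact hfX i a
  have hmem : ∀ j, MvPolynomial.map f (β j) ∈ forms w P (e + 1) := by
    intro j
    have h1 : MvPolynomial.map (algebraMap (PtRing n) (PtField n)) (β j) ∈
        forms w (fun i a => algebraMap (PtRing n) (PtField n) (X (i, a))) (e + 1) := by
      rw [hβ]
      exact (b j).2
    have h2 := spec_mem (x := fun i a => X (i, a)) (IsFractionRing.injective (PtRing n)
      (PtField n)) f h1
    rwa [hfP] at h2
  have hli : LinearIndependent K (fun j => MvPolynomial.map f (β j)) := by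
    refine li_of_minor _ ν ?_
    have h1 : Matrix.det (Matrix.of fun i j => coeff (ν i) (MvPolynomial.map f (β j))) = f F1 := by
      rw [hF1, RingHom.map_det]
      congr 1
    rw [h1]
    exact hP1
  have hfin := forms_finite w P (e + 1)
  have hli2 : LinearIndependent K (fun j => (⟨MvPolynomial.map f (β j), hmem j⟩ :
      ↥(forms w P (e + 1)))) := LinearIndependent.of_comp (Submodule.subtype _) hli
  obtain ⟨-, g2', -⟩ := hgen (PtField n) (gen n) (gen_ind n)
  have hNK : Fintype.card (Fin N) = Module.finrank K ↥(forms w P (e + 1)) := by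
    have e2 := finrank_of_surj g2'
    have hN : Module.finrank (PtField n) ↥(forms w (gen n) (e + 1)) = N := by
      rw [Module.finrank_eq_card_basis b, Fintype.card_fin]
    rw [Fintype.card_fin]
    omega
  let γ : Module.Basis (Fin N) K ↥(forms w P (e + 1)) :=
    Module.Basis.mk hli2 (hli2.span_eq_top_of_card_eq_finrank' hNK).ge
  have hγ : ∀ j, (γ j : MvPolynomial (Fin 3) K) = MvPolynomial.map f (β j) := by
    intro j
    change ((Module.Basis.mk hli2 _ j : ↥(forms w P (e + 1))) : MvPolynomial (Fin 3) K) = _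
    rw [Module.Basis.mk_apply]
  have hexc : ∀ i, ∀ v : Fin 2 → K, v ≠ 0 →
      ∃ G ∈ forms w P (e + 1), eval v (homogeneousComponent (w i) (tau (P i) G)) ≠ 0 := by
    intro i v hv
    by_cases hi : i ∈ S
    · exact exc_of_up (g1 i hi) v hv
    · by_contra hcon
      push Not at hcon
      apply hv
      funext a
      have h1 : f (s2 (i, a)) ≠ 0 := by
        have h2 : f (∏ ia, s2 ia) ≠ 0 := hP4
        rw [map_prod] at h2
        exact Finset.prod_ne_zero_iff.1 h2 (i, a) (Finset.mem_univ _)
      refine hs2 (i, a) hi K f h1 v fun j => ?_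
      have h3 : (fun c => f (X (i, c))) = P i := by
        funext c
        exact hfX i c
      rw [eval_locF, h3]
      exact hcon _ (hmem j)
  refine assemble' hexc (general_of_basis γ ?_)
  refine ⟨MvPolynomial.map f (∏ cα, s cα), fun h0 => hP3 ?_, fun t ht => ?_⟩
  · have h1 := congrArg (coeff μ) h0
    rw [coeff_map, coeff_zero] at h1
    exact h1
  · intro Q hQ hQ1 hQ2
    let ψ : MvPolynomial (Fin N) (PtRing n) →+* K := eval₂Hom f t
    have hψC : ψ.comp (C : PtRing n →+* MvPolynomial (Fin N) (PtRing n)) = f :=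
      RingHom.ext fun a => eval₂_C _ _ _
    have hψX : ∀ j, ψ (X j) = t j := fun j => eval₂_X _ _ _
    have hψs : ∀ cα, ψ (s cα) ≠ 0 := by
      intro cα
      rw [eval_map] at ht
      have h1 : ψ (∏ cα, s cα) ≠ 0 := ht
      rw [map_prod] at h1
      exact Finset.prod_ne_zero_iff.1 h1 cα (Finset.mem_univ cα)
    have hv1 : eval₂ ψ Q (univG β) = 0 := by
      rw [eval_univG, hψC, ← hQ1, map_sum]
      refine Finset.sum_congr rfl fun j _ => ?_
      rw [hψX, smul_eval, hγ, eval_map]
    have hv2 : ∀ a, eval₂ ψ Q (pderiv a (univG β)) = 0 := by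
      intro a
      rw [eval_pderiv_univG, hψC, ← hQ2 a, map_sum, map_sum]
      refine Finset.sum_congr rfl fun j _ => ?_
      rw [hψX, Derivation.map_smul, smul_eval, hγ, pderiv_map, eval_map]
    by_contra hcon
    push Not at hcon
    obtain ⟨c, hc⟩ : ∃ c, Q c ≠ 0 := by
      by_contra hcon2
      push Not at hcon2
      exact hQ (funext hcon2)
    have hα : ∀ i, ∃ a : Fin 2, Q (Fin.castSucc a) - P i a * Q 2 ≠ 0 := by
      intro i
      by_contra hcon2
      push Not at hcon2
      apply hcon i (Q 2)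
      have e0 := hcon2 0
      have e1 := hcon2 1
      funext j
      fin_cases j
      · change Q 0 = Q 2 * P i 0
        have : Q (Fin.castSucc (0 : Fin 2)) = Q 0 := rfl
        rw [this] at e0
        linear_combination e0
      · change Q 1 = Q 2 * P i 1
        have : Q (Fin.castSucc (1 : Fin 2)) = Q 1 := rfl
        rw [this] at e1
        linear_combination e1
      · change Q 2 = Q 2 * 1
        rw [mul_one]
    choose α hα using hα
    have h3 := hs (c, α) K ψ (hψs (c, α)) Q hv1 hv2
    have hval : eval₂ ψ Q (univh n N c α) = Q c * ∏ i, (Q (Fin.castSucc (α i)) -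
        P i (α i) * Q 2) := by
      unfold univh
      have := map_mul (eval₂Hom ψ Q) (X c)
        (∏ i, (X (Fin.castSucc (α i)) - C (C (X (i, α i))) * X 2))
      rw [map_prod] at this
      refine this.trans ?_
      congr 1
      · exact eval₂_X _ _ _
      · refine Finset.prod_congr rfl fun i _ => ?_
        rw [map_sub, map_mul]
        have a1 : (eval₂Hom ψ Q) (X (Fin.castSucc (α i))) = Q (Fin.castSucc (α i)) :=
          eval₂_X _ _ _
        have a2 : (eval₂Hom ψ Q) (X 2) = Q 2 := eval₂_X _ _ _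
        have a3 : (eval₂Hom ψ Q) (C (C (X (i, α i)))) = P i (α i) := by
          refine (eval₂_C _ _ _).trans ?_
          have a4 : ψ (C (X (i, α i))) = f (X (i, α i)) := eval₂_C _ _ _
          rw [a4, hfX]
        rw [a1, a2, a3]
    rw [hval] at h3
    rcases mul_eq_zero.1 h3 with h4 | h4
    · exact hc h4
    · obtain ⟨i, _, hi⟩ := Finset.prod_eq_zero_iff.1 h4
      exact hα i hi

end Pool.Agent.J6H44.PS
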