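import Mathlib
import Pool.Agent.J6H44.PS.Open2
import Pool.Agent.J6H44.PS.Abs

set_option autoImplicit false
set_option linter.unusedSectionVars false

/-!
# Smooth general members from expected dimensions, moving only some of the points
-/

namespace Pool.Agent.J6H44.PS

open MvPolynomial Pool.Agent.H248R5 Pool.Agent.H248R6 Pool.Agent.W611

theorem Aw_lowS {n : ℕ} (w : Fin n → ℕ) (S : Finset (Fin n)) :
    (∑ i, (low w S i + 1).choose 2) + ∑ i ∈ S, w i = ∑ i, (w i + 1).choose 2 := by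
  classical
  rw [← Finset.sum_filter_add_sum_filter_not Finset.univ (fun i => i ∈ S)
    (fun i => (low w S i + 1).choose 2),
    ← Finset.sum_filter_add_sum_filter_not Finset.univ (fun i => i ∈ S)
    (fun i => (w i + 1).choose 2)]
  have h1 : Finset.univ.filter (fun i => i ∈ S) = S := by
    ext i
    simp
  rw [h1]
  have h2 : ∑ i ∈ Finset.univ.filter (fun i => ¬ i ∈ S), (low w S i + 1).choose 2 =
      ∑ i ∈ Finset.univ.filter (fun i => ¬ i ∈ S), (w i + 1).choose 2 := by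
    refine Finset.sum_congr rfl fun i hi => ?_
    have := (Finset.mem_filter.1 hi).2
    unfold low
    rw [if_neg this]
  have h3 : (∑ i ∈ S, (low w S i + 1).choose 2) + ∑ i ∈ S, w i = ∑ i ∈ S, (w i + 1).choose 2 := by
    rw [← Finset.sum_add_distrib]
    refine Finset.sum_congr rfl fun i hi => ?_
    unfold low
    rw [if_pos hi]
    rcases Nat.eq_zero_or_pos (w i) with h | h
    · rw [h]
      rfl
    · obtain ⟨k, hk⟩ : ∃ k, w i = k + 1 := ⟨w i - 1, by omega⟩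
      rw [hk, Nat.add_sub_cancel, Nat.choose_succ_succ' (k + 1) 1, Nat.choose_one_right]
      ring
  omega

/-- Smoothness in one degree. -/
theorem smooth_one {K : Type} [Field K] [CharZero K] {n e : ℕ} {w : Fin n → ℕ}
    (S : Finset (Fin n)) (hS : ∀ i ∉ S, 0 < w i)
    (hw : (∑ j, (w j + 1).choose 2) ≤ (e + 1 + 2).choose 2)
    (hu : ∀ i ∈ S, (∑ j, (w j + 1).choose 2) + w i + 1 ≤ (e + 1 + 2).choose 2)
    (hl : (∑ i, (low w S i + 1).choose 2) ≤ (e + 2).choose 2)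
    (E0 : GenExp w (e + 1)) (El : GenExp (low w S) e)
    (Eu : ∀ k ∈ S, GenExp (Function.update w k (w k + 1)) (e + 1)) :
    ∃ F : MvPolynomial (Fin n × Fin 2) ℚ, F ≠ 0 ∧ ∀ P : Fin n → Fin 2 → K,
      aeval (fun ij : Fin n × Fin 2 => P ij.1 ij.2) F ≠ 0 →
      Module.finrank K ↥(forms w P (e + 1)) = (e + 1 + 2).choose 2 - ∑ i, (w i + 1).choose 2 ∧
        GeneralMember (forms w P (e + 1)) (SmoothMember w P) := by
  classical
  have s1 : ∀ {L : Type} [Field L] {P : Fin n → Fin 2 → L} (k : Fin n), k ∈ S →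
      H932R3.ExpDim L (Function.update w k (w k + 1)) P (e + 1) →
      Function.Surjective (ev (Function.update w k (w k + 1)) P (e + 1)) := by
    intro L _ P k hk h
    refine surj_of_ind ?_
    have h3 : Module.finrank L ↥(forms (Function.update w k (w k + 1)) P (e + 1)) =
      (e + 1 + 2).choose 2 -
        ∑ i, (Function.update w k (w k + 1) i + 1).choose 2 := h
    have h4 := hu k hk
    rw [Aw_up] at h3 ⊢
    omega
  have s2 : ∀ {L : Type} [Field L] {P : Fin n → Fin 2 → L},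
      H932R3.ExpDim L w P (e + 1) → Function.Surjective (ev w P (e + 1)) := by
    intro L _ P h
    refine surj_of_ind ?_
    have h3 : Module.finrank L ↥(forms w P (e + 1)) =
      (e + 1 + 2).choose 2 - ∑ i, (w i + 1).choose 2 := h
    omega
  have s3 : ∀ {L : Type} [Field L] {P : Fin n → Fin 2 → L},
      H932R3.ExpDim L (low w S) P e → Function.Surjective (ev (low w S) P e) := by
    intro L _ P h
    refine surj_of_ind ?_
    have h3 : Module.finrank L ↥(forms (low w S) P e) =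
      (e + 2).choose 2 - ∑ i, (low w S i + 1).choose 2 := h
    omega
  have f1 : ∀ k : Fin n, ∃ F : MvPolynomial (Fin n × Fin 2) ℚ,
      F ≠ 0 ∧ ∀ P : Fin n → Fin 2 → K,
        aeval (fun ij : Fin n × Fin 2 => P ij.1 ij.2) F ≠ 0 → k ∈ S →
          H932R3.ExpDim K (Function.update w k (w k + 1)) P (e + 1) := by
    intro k
    by_cases hk : k ∈ S
    · obtain ⟨F, hF, hF'⟩ := Eu k hk K
      exact ⟨F, hF, fun P hP _ => hF' P hP⟩
    · exact ⟨1, one_ne_zero, fun P _ h => absurd h hk⟩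
  choose G' hG' hG'' using f1
  obtain ⟨F0, hF0, hF0'⟩ := E0 K
  obtain ⟨F, hF, hF'⟩ := open_main' (K := K) (n := n) (e := e) (w := w) S hS
    (fun L _ _ P hP => by
      have hne : ∀ F : MvPolynomial (Fin n × Fin 2) ℚ, F ≠ 0 →
          aeval (fun ij : Fin n × Fin 2 => P ij.1 ij.2) F ≠ 0 :=
        fun F hF h0 => hF (hP.eq_zero_of_aeval_eq_zero F h0)
      refine ⟨fun k hk => ?_, ?_, ?_⟩
      · obtain ⟨F, hF, hF'⟩ := Eu k hk L
        exact s1 k hk (hF' P (hne F hF))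
      · obtain ⟨F, hF, hF'⟩ := E0 L
        exact s2 (hF' P (hne F hF))
      · obtain ⟨F, hF, hF'⟩ := El L
        exact s3 (hF' P (hne F hF)))
    ⟨F0 * ∏ k, G' k, mul_ne_zero hF0 (Finset.prod_ne_zero_iff.2 fun k _ => hG' k),
      fun P hP => by
        rw [map_mul, map_prod] at hP
        refine ⟨fun k hk => s1 k hk (hG'' k P ?_ hk),
          s2 (hF0' P (left_ne_zero_of_mul hP))⟩
        exact Finset.prod_ne_zero_iff.1 (right_ne_zero_of_mul hP) k (Finset.mem_univ k)⟩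
  refine ⟨F, hF, fun P hP => ?_⟩
  obtain ⟨h1, h2⟩ := hF' P hP
  refine ⟨?_, h2⟩
  have h3 : (e + 1 + 2).choose 2 = (e + 3).choose 2 := rfl
  omega

/-- Smooth general members in all degrees of a set `G`, one hypersurface for all degrees. -/
theorem smooth_all {K : Type} [Field K] [CharZero K] {n : ℕ} (w : Fin n → ℕ)
    (S : Finset (Fin n)) (hS : ∀ i ∉ S, 0 < w i) (hS0 : S.Nonempty)
    (G : ℕ → Prop) (hG1 : ∀ d, G d → 1 ≤ d) (D0 : ℕ) (hD0 : ∀ d, D0 ≤ d → G d)
    (g0 : ∀ (L : Type) [Field L] [CharZero L], ∃ F : MvPolynomial (Fin n × Fin 2) ℚ, F ≠ 0 ∧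
      ∀ P : Fin n → Fin 2 → L, aeval (fun ij : Fin n × Fin 2 => P ij.1 ij.2) F ≠ 0 →
        ∀ d, G d → H932R3.ExpDim L w P d)
    (gl : ∀ e, G (e + 1) →
      (∀ i ∈ S, (∑ j, (w j + 1).choose 2) + w i + 1 ≤ (e + 1 + 2).choose 2) →
      (∑ i, (low w S i + 1).choose 2) ≤ (e + 2).choose 2 ∧ GenExp (low w S) e)
    (gu : ∀ k ∈ S, ∀ e, G (e + 1) →
      (∀ i ∈ S, (∑ j, (w j + 1).choose 2) + w i + 1 ≤ (e + 1 + 2).choose 2) →
      GenExp (Function.update w k (w k + 1)) (e + 1)) :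
    ∃ F : MvPolynomial (Fin n × Fin 2) ℚ, F ≠ 0 ∧ ∀ P : Fin n → Fin 2 → K,
      aeval (fun ij : Fin n × Fin 2 => P ij.1 ij.2) F ≠ 0 → ∀ d, G d →
        Module.finrank K ↥(forms w P d) = (d + 2).choose 2 - ∑ i, (w i + 1).choose 2 ∧
        ((∀ i ∈ S, (∑ j, (w j + 1).choose 2) + w i + 1 ≤ (d + 2).choose 2) →
          GeneralMember (forms w P d) (SmoothMember w P)) := by
  classical
  obtain ⟨A, hA⟩ : ∃ A, A = ∑ i, (w i + 1).choose 2 := ⟨_, rfl⟩
  obtain ⟨F0, hF0, hF0'⟩ := g0 K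
  have key : ∀ d, G d → (∀ i ∈ S, A + w i + 1 ≤ (d + 2).choose 2) →
      ∃ F : MvPolynomial (Fin n × Fin 2) ℚ, F ≠ 0 ∧ ∀ P : Fin n → Fin 2 → K,
        aeval (fun ij : Fin n × Fin 2 => P ij.1 ij.2) F ≠ 0 →
          GeneralMember (forms w P d) (SmoothMember w P) := by
    intro d hd hAd
    obtain ⟨e, rfl⟩ : ∃ e, d = e + 1 := ⟨d - 1, by have := hG1 d hd; omega⟩
    have hAd' : ∀ i ∈ S, (∑ j, (w j + 1).choose 2) + w i + 1 ≤ (e + 1 + 2).choose 2 := by
      rw [← hA]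
      exact hAd
    obtain ⟨i0, hi0⟩ := hS0
    obtain ⟨F, hF, hF'⟩ := smooth_one (K := K) S hS
      (by have := hAd' i0 hi0; omega) hAd' (gl e hd hAd').1
      (fun L _ _ => by
        obtain ⟨F, hF, hF'⟩ := g0 L
        exact ⟨F, hF, fun P hP => hF' P hP (e + 1) hd⟩)
      (gl e hd hAd').2 (fun k hk => gu k hk e hd hAd')
    exact ⟨F, hF, fun P hP => (hF' P hP).2⟩
  obtain ⟨B, hB⟩ : ∃ B, B = max (D0 + 1) (A + 1) := ⟨_, rfl⟩
  have key2 : ∀ d : Fin B, ∃ F : MvPolynomial (Fin n × Fin 2) ℚ, F ≠ 0 ∧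
      ∀ P : Fin n → Fin 2 → K, aeval (fun ij : Fin n × Fin 2 => P ij.1 ij.2) F ≠ 0 →
        (G (d : ℕ) ∧ (∀ i ∈ S, A + w i + 1 ≤ ((d : ℕ) + 2).choose 2)) →
          GeneralMember (forms w P d) (SmoothMember w P) := by
    intro d
    by_cases h : G (d : ℕ) ∧ (∀ i ∈ S, A + w i + 1 ≤ ((d : ℕ) + 2).choose 2)
    · obtain ⟨F, hF, hF'⟩ := key d h.1 h.2
      exact ⟨F, hF, fun P hP _ => hF' P hP⟩
    · exact ⟨1, one_ne_zero, fun P _ h' => absurd h' h⟩
  choose G' hG' hG'' using key2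
  refine ⟨F0 * disc ℚ n * ∏ x, G' x, mul_ne_zero (mul_ne_zero hF0 (disc_ne ℚ n))
    (Finset.prod_ne_zero_iff.2 fun x _ => hG' x), fun P hP d hd => ?_⟩
  rw [map_mul, map_mul, map_prod] at hP
  have hP0 := left_ne_zero_of_mul (left_ne_zero_of_mul hP)
  have hPd := inj_of_disc' (right_ne_zero_of_mul (left_ne_zero_of_mul hP))
  refine ⟨hF0' P hP0 d hd, fun hAd => ?_⟩
  rcases Nat.lt_or_ge d B with h | h
  · rw [← hA] at hAd
    exact hG'' ⟨d, h⟩ P (Finset.prod_ne_zero_iff.1 (right_ne_zero_of_mul hP) ⟨d, h⟩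
      (Finset.mem_univ _)) ⟨hd, hAd⟩
  · have hd1 : 1 ≤ d := hG1 d hd
    refine general_smooth' hPd (by omega) (hF0' P hP0 (d - 1) (hD0 _ ?_)) ?_
    · rw [hB] at h
      have := le_max_left (D0 + 1) (A + 1)
      omega
    · rw [← hA]
      have h1 : A + 1 ≤ d := by
        rw [hB] at h
        exact (le_max_right _ _).trans h
      have h2 : d ≤ (d + 1).choose 2 := by
        rw [Nat.choose_succ_succ' d 1, Nat.choose_one_right]
        exact Nat.le_add_right _ _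
      omega

end Pool.Agent.J6H44.PS
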