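import Mathlib
import Pool.Agent.W611.SmoothH
import Pool.Agent.J6H44.PS.One

set_option autoImplicit false
set_option linter.unusedSectionVars false

/-!
# Above the two largest multiplicities: smooth general members of small dimension
-/

namespace Pool.Agent.J6H44.PS

open MvPolynomial Pool.Agent.H248R5 Pool.Agent.H248R6 Pool.Agent.W611

theorem genExp_cnd {m : ℕ} (hm : 0 < m) {n : ℕ} {w : Fin n → ℕ} {d : ℕ} (hC : Cnd m d w) :
    GenExp w d := by
  intro L _ _
  obtain ⟨F, hF, hF'⟩ := expH L m hm w d hC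
  exact ⟨F, hF, fun P hP => hF' P hP d (Or.inl le_rfl)⟩

/-- The conditions at the large points. -/
theorem big_sum {ι : Type} [DecidableEq ι] (B : Finset ι) (a : ι → ℕ) (z : ℕ)
    (h1 : ∀ i ∈ B, a i ≤ z) (h2 : ∀ i ∈ B, ∀ j ∈ B, i ≠ j → a i + a j ≤ z)
    (h3 : B.card ≤ 3 ∨ ∑ i ∈ B, a i ≤ 2 * z) : ∑ i ∈ B, a i * (a i + 1) ≤ z * (z + 2) := by
  rcases B.eq_empty_or_nonempty with h0 | h0
  · rw [h0, Finset.sum_empty]
    exact Nat.zero_le _
  obtain ⟨i0, hi0, hmax⟩ := Finset.exists_max_image B a h0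
  obtain ⟨x, hx⟩ : ∃ x, x = a i0 := ⟨_, rfl⟩
  have hxz : x ≤ z := by rw [hx]; exact h1 i0 hi0
  rw [← Finset.add_sum_erase _ _ hi0, ← hx]
  have hb : ∀ i ∈ B.erase i0, a i ≤ min x (z - x) := by
    intro i hi
    have hiB := Finset.mem_of_mem_erase hi
    have g1 := hmax i hiB
    have g2 := h2 i hiB i0 hi0 (Finset.ne_of_mem_erase hi)
    rw [← hx] at g1 g2
    exact le_min g1 (by omega)
  obtain ⟨b, hbb⟩ : ∃ b, b = min x (z - x) := ⟨_, rfl⟩
  rw [← hbb] at hb
  have hbx : b ≤ x := by rw [hbb]; exact min_le_left _ _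
  have hbz : b + x ≤ z := by
    have := min_le_right x (z - x)
    rw [← hbb] at this
    omega
  have hzb : b = x ∨ b + x = z := by
    rcases le_total x (z - x) with h | h
    · left
      rw [hbb, min_eq_left h]
    · right
      rw [hbb, min_eq_right h]
      omega
  rcases h3 with h3 | h3
  · have h4 : ∑ i ∈ B.erase i0, a i * (a i + 1) ≤ 2 * (b * (b + 1)) := by
      have h5 : ∑ i ∈ B.erase i0, a i * (a i + 1) ≤ (B.erase i0).card • (b * (b + 1)) :=
        Finset.sum_le_card_nsmul _ _ _ fun i hi =>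
          Nat.mul_le_mul (hb i hi) (Nat.succ_le_succ (hb i hi))
      have h6 : (B.erase i0).card ≤ 2 := by
        rw [Finset.card_erase_of_mem hi0]
        omega
      rw [smul_eq_mul] at h5
      exact h5.trans (Nat.mul_le_mul_right _ h6)
    refine le_trans (Nat.add_le_add_left h4 _) ?_
    rcases hzb with h | h
    · rw [h] at hbz ⊢
      nlinarith
    · subst h
      nlinarith [Nat.zero_le b, Nat.zero_le x, Nat.mul_le_mul_left b hbx]
  · have h4 : ∑ i ∈ B.erase i0, a i * (a i + 1) ≤ (b + 1) * ∑ i ∈ B.erase i0, a i := by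
      rw [Finset.mul_sum]
      refine Finset.sum_le_sum fun i hi => ?_
      rw [mul_comm]
      exact Nat.mul_le_mul_right _ (Nat.succ_le_succ (hb i hi))
    rw [← Finset.add_sum_erase _ _ hi0, ← hx] at h3
    obtain ⟨s, hs⟩ : ∃ s, s = ∑ i ∈ B.erase i0, a i := ⟨_, rfl⟩
    rw [← hs] at h3 h4
    refine le_trans (Nat.add_le_add_left h4 _) ?_
    have h5 : (b + 1) * s ≤ (b + 1) * (2 * z - x) := Nat.mul_le_mul_left _ (by omega)
    refine le_trans (Nat.add_le_add_left h5 _) ?_
    rcases hzb with h | h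
    · obtain ⟨t, ht⟩ : ∃ t, z = b + x + t := ⟨z - (b + x), by omega⟩
      rw [h] at ht ⊢
      subst ht
      have h6 : 2 * (x + x + t) - x = 3 * x + 2 * t := by omega
      rw [h6]
      nlinarith [Nat.zero_le (x * t), Nat.zero_le (t * t)]
    · subst h
      have h6 : 2 * (b + x) - x = 2 * b + x := by omega
      rw [h6]
      obtain ⟨u, hu⟩ : ∃ u, x = b + u := ⟨x - b, by omega⟩
      subst hu
      nlinarith [Nat.zero_le (b * u), Nat.zero_le (u * u), Nat.zero_le (b * b)]

/-- The points of multiplicity less than `m`. -/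
def ltS {n : ℕ} (m : ℕ) (w : Fin n → ℕ) : Finset (Fin n) := Finset.univ.filter fun i => w i < m

theorem mem_ltS {n m : ℕ} {w : Fin n → ℕ} {i : Fin n} : i ∈ ltS m w ↔ w i < m := by
  unfold ltS
  rw [Finset.mem_filter]
  exact ⟨fun h => h.2, fun h => ⟨Finset.mem_univ _, h⟩⟩

/-- The arithmetic of the lowered system. -/
theorem above_arith {m e f A U V : ℤ} (hm : 1 ≤ m) (hf : f = 2 * m ^ 2 + 3 * m + 3)
    (he : f ≤ e + 1) (hU0 : 0 ≤ U) (hU : U ≤ m * V)
    (hA : A ≤ (e + 1 - f) * (e + 1 - f + 2)) (hAU : A + U ≤ (e + 2) * (e + 3)) :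
    A + U - 2 * V ≤ (e + 1) * (e + 2) := by
  have hmf : 0 ≤ m ^ 2 := sq_nonneg m
  have hx : 0 ≤ e + 1 - f := by linarith
  -- `T = (e + 2) (e + 3) - A`
  have hT : m * (e + 2) + 2 * (e + 2) ≤ (e + 2) * (e + 3) - A := by
    obtain ⟨z, hz⟩ : ∃ z, z = e + 1 - f := ⟨_, rfl⟩
    rw [← hz] at hA hx
    have he' : e = z + f - 1 := by linarith
    rw [he', hf]
    nlinarith [mul_nonneg hx hmf, mul_nonneg hx (by linarith : (0 : ℤ) ≤ m), mul_nonneg hmf hmf]
  rcases le_or_gt 2 m with h2 | h2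
  · have h3 : m * (U - 2 * V) ≤ m * ((e + 2) * (e + 3) - A - 2 * (e + 2)) := by
      have h4 : m * (U - 2 * V) ≤ (m - 2) * U := by nlinarith
      have h5 : (m - 2) * U ≤ (m - 2) * ((e + 2) * (e + 3) - A) :=
        mul_le_mul_of_nonneg_left (by linarith) (by linarith)
      have h6 : (m - 2) * ((e + 2) * (e + 3) - A) ≤
          m * ((e + 2) * (e + 3) - A - 2 * (e + 2)) := by nlinarith
      linarith
    have h4 := le_of_mul_le_mul_left h3 (by linarith)
    nlinarith
  · have h3 : m = 1 := by omega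
    subst h3
    nlinarith

/-- **Above the two largest multiplicities**, smooth general members of small dimension. -/
theorem above_smooth {K : Type} [Field K] [CharZero K] {n : ℕ} (m : ℕ) (hm : 0 < m)
    (w : Fin n → ℕ) (D : ℕ) (h1 : ff m + 1 ≤ D) (h2 : ∀ i, m ≤ w i → w i + ff m + 1 ≤ D)
    (h3 : ∀ i j, i ≠ j → m ≤ w i → m ≤ w j → w i + w j + ff m + 1 ≤ D)
    (h4 : (Finset.univ.filter fun i => m ≤ w i).card ≤ 3 ∨
      (∑ i, if m ≤ w i then w i else 0) + 2 * ff m + 2 * m + 3 ≤ 2 * D) {e : ℕ} (hd : D ≤ e + 1)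
    (hh : (∑ j, (w j + 1).choose 2) + m ≤ (e + 1 + 2).choose 2) :
    ∃ F : MvPolynomial (Fin n × Fin 2) ℚ, F ≠ 0 ∧ ∀ P : Fin n → Fin 2 → K,
      MvPolynomial.aeval (fun ij : Fin n × Fin 2 => P ij.1 ij.2) F ≠ 0 →
        GeneralMember (forms w P (e + 1)) (SmoothMember w P) := by
  classical
  have hN : ∀ v : Fin n → ℕ, (∀ i, v i ≤ w i + 1) →
      Nlg m v ≤ (Finset.univ.filter fun i => m ≤ w i).card := by
    intro v hv
    unfold Nlg
    rw [Finset.card_filter]
    refine Finset.sum_le_sum fun i _ => ?_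
    have := hv i
    split_ifs <;> omega
  have hC0 : Cnd m (D - 1) w := by
    refine ⟨by omega, fun i hi => ?_, fun i j hij hi hj => ?_, ?_⟩
    · have := h2 i (by omega)
      omega
    · have := h3 i j hij (by omega) (by omega)
      omega
    · have e1 := hN w fun i => Nat.le_succ _
      have e2 : Slg m w ≤ ∑ i, if m ≤ w i then w i else 0 := by
        unfold Slg
        refine Finset.sum_le_sum fun i _ => ?_
        split_ifs <;> omega
      rcases h4 with h4 | h4
      · exact Or.inl (by omega)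
      · right
        omega
  have hC2 : ∀ k ∈ ltS m w, Cnd m D (Function.update w k (w k + 1)) := by
    intro k hk
    rw [mem_ltS] at hk
    have hle : ∀ i, m < Function.update w k (w k + 1) i →
        Function.update w k (w k + 1) i = w i := by
      intro i hi
      by_cases hik : i = k
      · rw [hik, Function.update_self] at hi
        omega
      · rw [Function.update_of_ne hik]
    refine ⟨by omega, fun i hi => ?_, fun i j hij hi hj => ?_, ?_⟩
    · have g := hle i hi
      have := h2 i (by omega)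
      omega
    · have g := hle i hi
      have g' := hle j hj
      have := h3 i j hij (by omega) (by omega)
      omega
    · have e2 : Slg m (Function.update w k (w k + 1)) ≤ ∑ i, if m ≤ w i then w i else 0 := by
        unfold Slg
        refine Finset.sum_le_sum fun i _ => ?_
        by_cases hi : m < Function.update w k (w k + 1) i
        · have g := hle i hi
          rw [if_neg (by omega), g, if_pos (by omega)]
        · rw [if_pos (by omega)]
          exact Nat.zero_le _
      have e1 : Nlg m (Function.update w k (w k + 1)) ≤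
          (Finset.univ.filter fun i => m ≤ w i).card := by
        unfold Nlg
        rw [Finset.card_filter]
        refine Finset.sum_le_sum fun i _ => ?_
        by_cases hi : m < Function.update w k (w k + 1) i
        · have g := hle i hi
          rw [if_neg (by omega), if_pos (by omega)]
        · rw [if_pos (by omega)]
          exact Nat.zero_le _
      rcases h4 with h4 | h4
      · exact Or.inl (by omega)
      · right
        omega
  have hlow : ∀ i, low w (ltS m w) i ≤ w i := by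
    intro i
    unfold low
    split_ifs
    · exact Nat.sub_le _ _
    · exact le_rfl
  -- twice the number of conditions
  have hch : ∀ a : ℕ, 2 * (a + 1).choose 2 = a * (a + 1) := by
    intro a
    have h6 : 2 ∣ (a + 1) * a := by
      rw [mul_comm]
      exact (Nat.even_mul_succ_self a).two_dvd
    rw [Nat.choose_two_right, Nat.add_sub_cancel, Nat.mul_div_cancel' h6, mul_comm]
  obtain ⟨B, hB⟩ : ∃ B : Finset (Fin n), B = Finset.univ.filter fun i => m ≤ w i := ⟨_, rfl⟩
  have hBm : ∀ i, i ∈ B ↔ m ≤ w i := by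
    intro i
    rw [hB, Finset.mem_filter]
    exact ⟨fun h => h.2, fun h => ⟨Finset.mem_univ _, h⟩⟩
  have hsum : 2 * (∑ i, (w i + 1).choose 2) =
      ∑ i ∈ B, w i * (w i + 1) + ∑ i ∈ ltS m w, w i * (w i + 1) := by
    have h5 : ltS m w = Finset.univ.filter fun i => ¬ m ≤ w i := by
      ext i
      rw [mem_ltS, Finset.mem_filter]
      constructor
      · intro h
        exact ⟨Finset.mem_univ _, by omega⟩
      · intro h
        have := h.2
        omega
    rw [Finset.mul_sum, ← Finset.sum_filter_add_sum_filter_not Finset.univ (fun i => m ≤ w i), hB,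
      h5]
    simp only [hch]
  have hf : ff m + 1 = 2 * m ^ 2 + 3 * m + 3 := by
    unfold ff
    ring
  have hA : ∑ i ∈ B, w i * (w i + 1) ≤ (e + 1 - (ff m + 1)) * (e + 1 - (ff m + 1) + 2) := by
    refine big_sum B w _ (fun i hi => ?_) (fun i hi j hj hij => ?_) ?_
    · have := h2 i ((hBm i).1 hi)
      omega
    · have := h3 i j hij ((hBm i).1 hi) ((hBm j).1 hj)
      omega
    · rcases h4 with h4 | h4
      · left
        rw [hB]
        exact h4
      · right
        have h5 : ∑ i ∈ B, w i = ∑ i, if m ≤ w i then w i else 0 := by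
          rw [hB, Finset.sum_filter]
        rw [h5]
        omega
  have hU : ∑ i ∈ ltS m w, w i * (w i + 1) ≤ m * ∑ i ∈ ltS m w, w i := by
    rw [Finset.mul_sum]
    refine Finset.sum_le_sum fun i hi => ?_
    rw [mul_comm]
    exact Nat.mul_le_mul_right _ (mem_ltS.1 hi)
  have h5 : 2 * (e + 1 + 2).choose 2 = (e + 2) * (e + 3) := hch (e + 2)
  have h6 : 2 * (e + 2).choose 2 = (e + 1) * (e + 2) := hch (e + 1)
  have h7 := Aw_lowS w (ltS m w)
  have hl : (∑ i, (low w (ltS m w) i + 1).choose 2) ≤ (e + 2).choose 2 := by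
    obtain ⟨x, hx⟩ : ∃ x, x = ∑ i ∈ B, w i * (w i + 1) := ⟨_, rfl⟩
    obtain ⟨U, hUU⟩ : ∃ U, U = ∑ i ∈ ltS m w, w i * (w i + 1) := ⟨_, rfl⟩
    obtain ⟨V, hVV⟩ : ∃ V, V = ∑ i ∈ ltS m w, w i := ⟨_, rfl⟩
    rw [← hx] at hA hsum
    rw [← hUU] at hU hsum
    rw [← hVV] at hU h7
    have h8 : x + U ≤ (e + 2) * (e + 3) := by
      rw [← hsum, ← h5]
      omega
    have h9 := above_arith (m := m) (e := e) (f := (ff m : ℤ) + 1) (A := x) (U := U) (V := V)
      (by exact_mod_cast hm) (by exact_mod_cast hf) (by exact_mod_cast (h1.trans hd))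
      (Nat.cast_nonneg _) (by exact_mod_cast hU) (by
        have h10 : (x : ℤ) ≤ (((e + 1 - (ff m + 1)) * (e + 1 - (ff m + 1) + 2) : ℕ) : ℤ) := by
          exact_mod_cast hA
        have h11 : (((e + 1 - (ff m + 1) : ℕ)) : ℤ) = (e : ℤ) + 1 - ((ff m : ℤ) + 1) := by
          rw [Nat.cast_sub (h1.trans hd)]
          push_cast
          ring
        rw [Nat.cast_mul, Nat.cast_add, h11] at h10
        exact_mod_cast h10) (by exact_mod_cast h8)
    have h10 : x + U ≤ (e + 1) * (e + 2) + 2 * V := by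
      have h11 : (x : ℤ) + U ≤ ((e : ℤ) + 1) * (e + 2) + 2 * V := by linarith
      exact_mod_cast h11
    rw [← hsum, ← h6] at h10
    omega
  obtain ⟨F, hF, hF'⟩ := smooth_one (K := K) (w := w) (e := e) (ltS m w)
    (fun i hi => by
      rw [mem_ltS] at hi
      omega)
    (by omega)
    (fun i hi => by
      rw [mem_ltS] at hi
      omega)
    hl (genExp_cnd hm (hC0.mono_d (by omega)))
    (genExp_cnd hm ((hC0.mono_v hlow).mono_d (by omega)))
    (fun k hk => genExp_cnd hm ((hC2 k hk).mono_d hd))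
  exact ⟨F, hF, fun P hP => (hF' P hP).2⟩

/-- One hypersurface for all degrees. -/
theorem above_all {K : Type} [Field K] [CharZero K] {n : ℕ} (m : ℕ) (hm : 0 < m)
    (w : Fin n → ℕ) (D : ℕ) (h1 : ff m + 1 ≤ D) (h2 : ∀ i, m ≤ w i → w i + ff m + 1 ≤ D)
    (h3 : ∀ i j, i ≠ j → m ≤ w i → m ≤ w j → w i + w j + ff m + 1 ≤ D)
    (h4 : (Finset.univ.filter fun i => m ≤ w i).card ≤ 3 ∨
      (∑ i, if m ≤ w i then w i else 0) + 2 * ff m + 2 * m + 3 ≤ 2 * D) :
    ∃ F : MvPolynomial (Fin n × Fin 2) ℚ, F ≠ 0 ∧ ∀ P : Fin n → Fin 2 → K,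
      MvPolynomial.aeval (fun ij : Fin n × Fin 2 => P ij.1 ij.2) F ≠ 0 → ∀ d, D ≤ d →
        Module.finrank K ↥(forms w P d) = (d + 2).choose 2 - ∑ i, (w i + 1).choose 2 ∧
        ((∑ j, (w j + 1).choose 2) + m ≤ (d + 2).choose 2 →
          GeneralMember (forms w P d) (SmoothMember w P)) := by
  classical
  obtain ⟨F0, hF0, hF0'⟩ := smoothH (K := K) m hm w D h1 h2 h3 h4
  obtain ⟨A, hA⟩ : ∃ A, A = ∑ i, (w i + 1).choose 2 := ⟨_, rfl⟩
  have key2 : ∀ d : Fin (A + ∑ i, w i + 2), ∃ F : MvPolynomial (Fin n × Fin 2) ℚ, F ≠ 0 ∧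
      ∀ P : Fin n → Fin 2 → K, aeval (fun ij : Fin n × Fin 2 => P ij.1 ij.2) F ≠ 0 →
        (D ≤ (d : ℕ) ∧ A + m ≤ ((d : ℕ) + 2).choose 2) →
          GeneralMember (forms w P d) (SmoothMember w P) := by
    intro d
    by_cases h : D ≤ (d : ℕ) ∧ A + m ≤ ((d : ℕ) + 2).choose 2
    · obtain ⟨e, he⟩ : ∃ e, (d : ℕ) = e + 1 := ⟨(d : ℕ) - 1, by omega⟩
      obtain ⟨F, hF, hF'⟩ := above_smooth (K := K) m hm w D h1 h2 h3 h4 (e := e)
        (by rw [← he]; exact h.1) (by rw [← he, ← hA]; exact h.2)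
      refine ⟨F, hF, fun P hP _ => ?_⟩
      rw [he]
      exact hF' P hP
    · exact ⟨1, one_ne_zero, fun P _ h' => absurd h' h⟩
  choose G' hG' hG'' using key2
  refine ⟨F0 * ∏ x, G' x, mul_ne_zero hF0 (Finset.prod_ne_zero_iff.2 fun x _ => hG' x),
    fun P hP d hd => ?_⟩
  rw [map_mul, map_prod] at hP
  obtain ⟨k1, k2⟩ := hF0' P (left_ne_zero_of_mul hP) d hd
  refine ⟨k1, fun h => ?_⟩
  rcases Nat.lt_or_ge d (A + ∑ i, w i + 2) with h5 | h5
  · rw [← hA] at h
    exact hG'' ⟨d, h5⟩ P (Finset.prod_ne_zero_iff.1 (right_ne_zero_of_mul hP) ⟨d, h5⟩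
      (Finset.mem_univ _)) ⟨hd, h⟩
  · refine k2 fun i => ?_
    rw [← hA]
    have h6 : w i ≤ ∑ i, w i := Finset.single_le_sum (fun i _ => Nat.zero_le _) (Finset.mem_univ i)
    have h7 : d + 1 ≤ (d + 2).choose 2 := by
      rw [Nat.choose_succ_succ' (d + 1) 1, Nat.choose_one_right]
      exact Nat.le_add_right _ _
    omega

end Pool.Agent.J6H44.PS
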