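import Mathlib
import Pool.Agent.Y939.WN.Large
import Pool.Agent.J6H44.PS.One

set_option autoImplicit false

/-!
# Every vector of multiplicities: smooth general members
-/

namespace Pool.Agent.J6H44.PS

open MvPolynomial Pool.Agent.H248R5 Pool.Agent.H248R6 Pool.Agent.Y939.WN

theorem genExp_of_large {n d : ℕ} {w : Fin n → ℕ} (h : Large d w) : GenExp w d := by
  intro L _ _
  obtain ⟨F, hF, hF'⟩ := Pool.Agent.TH442.NF.to_open (d := d) (w := w)
    fun {K} _ _ P hP => large_exp h hP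
  exact ⟨F, hF, fun P hP => hF' P hP⟩

/-- The points of multiplicity at least two. -/
def mulP {n : ℕ} (w : Fin n → ℕ) : Finset (Fin n) := Finset.univ.filter fun i => 2 ≤ w i

theorem mem_mulP {n : ℕ} {w : Fin n → ℕ} {i : Fin n} : i ∈ mulP w ↔ 2 ≤ w i := by
  unfold mulP
  rw [Finset.mem_filter]
  exact ⟨fun h => h.2, fun h => ⟨Finset.mem_univ _, h⟩⟩

theorem ch2 (a : ℕ) : 2 * (a + 1).choose 2 = a * (a + 1) := by
  have h6 : 2 ∣ (a + 1) * a := by
    rw [mul_comm]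
    exact (Nat.even_mul_succ_self a).two_dvd
  rw [Nat.choose_two_right, Nat.add_sub_cancel, Nat.mul_div_cancel' h6, mul_comm]

theorem large_up {n d μ : ℕ} {w : Fin n → ℕ} (hμ : ∀ i, w i ≤ μ)
    (h1 : 51000 * (μ + 2) ^ 2 + 4 * ∑ i ∈ mulP w, (w i + 1).choose 2 ≤
      (∑ i ∈ mulP w, w i) + 4 * (d + 2).choose 2) (k : Fin n) :
    Large d (Function.update w k (w k + 1)) := by
  classical
  set Q := (mulP w).erase k with hQ
  have hkQ : k ∉ Q := Finset.notMem_erase k _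
  have hsum : ∀ f : ℕ → ℤ, ∑ i ∈ insert k Q, f (Function.update w k (w k + 1) i) =
      f (w k + 1) + ∑ i ∈ Q, f (w i) := by
    intro f
    rw [Finset.sum_insert hkQ, Function.update_self]
    congr 1
    refine Finset.sum_congr rfl fun i hi => ?_
    rw [Function.update_of_ne (Finset.ne_of_mem_erase hi)]
  refine ⟨insert k Q, μ + 1, fun i hi => ?_, fun i hi => ?_, ?_⟩
  · by_cases hik : i = k
    · rw [hik, Function.update_self]
      exact Nat.succ_le_succ (hμ k)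
    · rw [Function.update_of_ne hik]
      exact (hμ i).trans (Nat.le_succ μ)
  · have h2 : i ≠ k := fun h => hi (h ▸ Finset.mem_insert_self _ _)
    rw [Function.update_of_ne h2]
    by_contra hcon
    push Not at hcon
    exact hi (Finset.mem_insert_of_mem (Finset.mem_erase.2 ⟨h2, mem_mulP.2 hcon⟩))
  · rw [hsum fun x => (x : ℤ), hsum fun x => ((x + 1).choose 2 : ℤ)]
    have hsplit : ∀ f : ℕ → ℤ, ∑ i ∈ mulP w, f (w i) =
        (if k ∈ mulP w then f (w k) else 0) + ∑ i ∈ Q, f (w i) := by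
      intro f
      split_ifs with hk
      · exact (Finset.add_sum_erase _ (fun i => f (w i)) hk).symm
      · rw [hQ, Finset.erase_eq_of_notMem hk, zero_add]
    have h2 := hsplit fun x => (x : ℤ)
    have h3 := hsplit fun x => ((x + 1).choose 2 : ℤ)
    have h1' : 51000 * ((μ : ℤ) + 2) ^ 2 + 4 * ∑ i ∈ mulP w, ((w i + 1).choose 2 : ℤ) ≤
        (∑ i ∈ mulP w, (w i : ℤ)) + 4 * ((d + 2).choose 2 : ℤ) := by
      exact_mod_cast h1
    rw [h2, h3] at h1'
    have hkμ : (w k : ℤ) ≤ μ := by exact_mod_cast hμ k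
    have hk0 : (0 : ℤ) ≤ w k := Nat.cast_nonneg _
    obtain ⟨a, ha⟩ : ∃ a : ℤ, a = ∑ i ∈ Q, (w i : ℤ) := ⟨_, rfl⟩
    obtain ⟨b, hb⟩ : ∃ b : ℤ, b = ∑ i ∈ Q, ((w i + 1).choose 2 : ℤ) := ⟨_, rfl⟩
    obtain ⟨c, hc⟩ : ∃ c : ℤ, c = ((d + 2).choose 2 : ℤ) := ⟨_, rfl⟩
    rw [← ha, ← hb, ← hc] at h1' ⊢
    have h5 : ((w k + 1 + 1).choose 2 : ℤ) ≤
        (if k ∈ mulP w then ((w k + 1).choose 2 : ℤ) else 0) + (μ + 3) := by
      split_ifs with hk
      · have h6 : (w k + 1 + 1).choose 2 = (w k + 1) + (w k + 1).choose 2 := by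
          rw [Nat.choose_succ_succ' (w k + 1) 1, Nat.choose_one_right]
        rw [h6]
        push_cast
        linarith
      · have h6 : w k ≤ 1 := by
          by_contra h
          exact hk (mem_mulP.2 (by omega))
        have h7 : (w k + 1 + 1).choose 2 ≤ (3 : ℕ).choose 2 :=
          Nat.choose_le_choose 2 (by omega)
        have h8 : (3 : ℕ).choose 2 = 3 := rfl
        have h9 : ((w k + 1 + 1).choose 2 : ℤ) ≤ 3 := by
          rw [h8] at h7
          exact_mod_cast h7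
        have h10 : (0 : ℤ) ≤ μ := Nat.cast_nonneg _
        linarith
    have h6 : (if k ∈ mulP w then (w k : ℤ) else 0) ≤ w k := by
      split_ifs
      · exact le_rfl
      · exact hk0
    have h7 := le_abs_self (c - (((w k + 1 + 1).choose 2 : ℤ) + b))
    push_cast
    have h8 : (0 : ℤ) ≤ μ := Nat.cast_nonneg _
    have h9 : 25000 * ((μ : ℤ) + 1 + 1) ^ 2 + 4 * ((μ : ℤ) + 3) ≤ 51000 * ((μ : ℤ) + 2) ^ 2 := by
      nlinarith
    linarith

theorem large_self {n d μ : ℕ} {w : Fin n → ℕ} (hμ : ∀ i, w i ≤ μ)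
    (h1 : 51000 * (μ + 2) ^ 2 + 4 * ∑ i ∈ mulP w, (w i + 1).choose 2 ≤
      (∑ i ∈ mulP w, w i) + 4 * (d + 2).choose 2) : Large d w := by
  classical
  refine ⟨mulP w, μ, fun i _ => hμ i, fun i hi => ?_, ?_⟩
  · by_contra h
    exact hi (mem_mulP.2 (by omega))
  · have h1' : 51000 * ((μ : ℤ) + 2) ^ 2 + 4 * ∑ i ∈ mulP w, ((w i + 1).choose 2 : ℤ) ≤
        (∑ i ∈ mulP w, (w i : ℤ)) + 4 * ((d + 2).choose 2 : ℤ) := by
      exact_mod_cast h1
    have h7 := le_abs_self (((d + 2).choose 2 : ℤ) - ∑ i ∈ mulP w, ((w i + 1).choose 2 : ℤ))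
    have h8 : (0 : ℤ) ≤ μ := Nat.cast_nonneg _
    have h9 : 25000 * ((μ : ℤ) + 1) ^ 2 ≤ 51000 * ((μ : ℤ) + 2) ^ 2 := by
      nlinarith
    linarith

/-- The arithmetic of the lowered system. -/
theorem low_arith {μ e z X Y A W cd ce : ℤ} (hμ : 0 ≤ μ) (he : 0 ≤ e) (hz : 0 ≤ z) (hX : X ≤ 2 * z)
    (hA : 2 * A ≤ (μ + 1) * X) (hW : 0 ≤ W) (hcd : cd = ce + (e + 2))
    (hce : 2 * ce = (e + 1) * (e + 2)) (hY : Y = ce - (A - W)) (hY0 : 0 ≤ Y)
    (hbig : 51000 * (μ + 2) ^ 2 + 4 * A ≤ X + 4 * cd) :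
    25000 * (μ + 1) ^ 2 ≤ z + 4 * Y := by
  by_contra hcon
  push Not at hcon
  -- `z + 4 Y < 25000 (μ + 1) ^ 2`
  have h1 : 51000 * (μ + 2) ^ 2 < 50000 * (μ + 1) ^ 2 + 4 * (e + 2) := by
    have : 51000 * (μ + 2) ^ 2 ≤ 2 * z + 4 * Y + 4 * (e + 2) := by linarith
    linarith
  have h2 : 250 * (μ + 2) ^ 2 < e + 2 := by nlinarith
  have h3 : z < 25000 * (μ + 1) ^ 2 := by linarith
  have h4 : 2 * A < 50000 * (μ + 1) ^ 3 := by
    have h5 : (μ + 1) * X ≤ (μ + 1) * (2 * z) := by nlinarith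
    have h6 : (μ + 1) * (2 * z) < (μ + 1) * (2 * (25000 * (μ + 1) ^ 2)) := by
      apply mul_lt_mul_of_pos_left _ (by linarith)
      linarith
    nlinarith
  have h5 : (e + 1) * (e + 2) < 50000 * (μ + 1) ^ 3 + 12500 * (μ + 1) ^ 2 := by
    have : 2 * ce ≤ 2 * A + 2 * Y := by linarith
    linarith
  obtain ⟨s, hs⟩ : ∃ s, s = (μ + 2) ^ 2 := ⟨_, rfl⟩
  have hs4 : 4 ≤ s := by rw [hs]; nlinarith
  have h6 : 250 * s + 1 ≤ e + 2 := by rw [hs]; linarith
  have h7 : (250 * s) * (250 * s + 1) ≤ (e + 1) * (e + 2) := by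
    apply mul_le_mul <;> linarith
  have h8 : 50000 * (μ + 1) ^ 3 + 12500 * (μ + 1) ^ 2 ≤ 62500 * (μ + 2) ^ 3 := by
    nlinarith [sq_nonneg μ, mul_nonneg hμ hμ, mul_nonneg (mul_nonneg hμ hμ) hμ]
  have h9 : 62500 * (μ + 2) ^ 3 ≤ 62500 * (s * s) := by
    have : (μ + 2) ^ 3 ≤ s * s := by
      have : s * s - (μ + 2) ^ 3 = (μ + 2) ^ 3 * (μ + 1) := by rw [hs]; ring
      have h10 : 0 ≤ (μ + 2) ^ 3 * (μ + 1) := by positivity
      linarith
    linarith
  nlinarith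

theorem large_low {n e μ : ℕ} {w : Fin n → ℕ} (hμ : ∀ i, w i ≤ μ) (S : Finset (Fin n))
    (h1 : 51000 * (μ + 2) ^ 2 + 4 * ∑ i ∈ mulP w, (w i + 1).choose 2 ≤
      (∑ i ∈ mulP w, w i) + 4 * (e + 1 + 2).choose 2)
    (h2 : (∑ i, (low w S i + 1).choose 2) ≤ (e + 2).choose 2) :
    Large e (low w S) := by
  classical
  have hlow : ∀ i, low w S i ≤ w i := by
    intro i
    unfold low
    split_ifs
    · exact Nat.sub_le _ _
    · exact le_rfl
  refine ⟨mulP w, μ, fun i _ => (hlow i).trans (hμ i), fun i hi => ?_, ?_⟩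
  · refine (hlow i).trans ?_
    by_contra h
    exact hi (mem_mulP.2 (by omega))
  · have e1 : (∑ i ∈ mulP w, (low w S i + 1).choose 2) + ∑ i ∈ mulP w ∩ S, w i =
        ∑ i ∈ mulP w, (w i + 1).choose 2 := by
      have h3 : ∑ i ∈ mulP w ∩ S, w i = ∑ i ∈ mulP w, if i ∈ S then w i else 0 := by
        rw [← Finset.sum_filter]
        refine Finset.sum_congr ?_ fun _ _ => rfl
        ext i
        rw [Finset.mem_inter, Finset.mem_filter]
      rw [h3, ← Finset.sum_add_distrib]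
      refine Finset.sum_congr rfl fun i hi => ?_
      have h4 := mem_mulP.1 hi
      unfold low
      split_ifs with h5
      · obtain ⟨k, hk⟩ : ∃ k, w i = k + 1 := ⟨w i - 1, by omega⟩
        rw [hk, Nat.add_sub_cancel, Nat.choose_succ_succ' (k + 1) 1, Nat.choose_one_right]
        ring
      · rfl
    have e2 : (∑ i ∈ mulP w, (low w S i + 1).choose 2) ≤ (e + 2).choose 2 :=
      (Finset.sum_le_sum_of_subset (Finset.subset_univ _)).trans h2
    have e3 : ∑ i ∈ mulP w, w i ≤ 2 * ∑ i ∈ mulP w, low w S i := by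
      rw [Finset.mul_sum]
      refine Finset.sum_le_sum fun i hi => ?_
      have h4 := mem_mulP.1 hi
      unfold low
      split_ifs <;> omega
    have e4 : 2 * ∑ i ∈ mulP w, (w i + 1).choose 2 ≤ (μ + 1) * ∑ i ∈ mulP w, w i := by
      rw [Finset.mul_sum, Finset.mul_sum]
      refine Finset.sum_le_sum fun i _ => ?_
      rw [ch2, mul_comm]
      exact Nat.mul_le_mul_right _ (Nat.succ_le_succ (hμ i))
    have e5 : (e + 1 + 2).choose 2 = (e + 2).choose 2 + (e + 2) := by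
      rw [Nat.choose_succ_succ' (e + 2) 1, Nat.choose_one_right]
      ring
    have e6 : 2 * (e + 2).choose 2 = (e + 1) * (e + 2) := ch2 (e + 1)
    have c1 : ∑ i ∈ mulP w, ((low w S i : ℕ) : ℤ) = ((∑ i ∈ mulP w, low w S i : ℕ) : ℤ) := by
      push_cast
      rfl
    have c2 : ∑ i ∈ mulP w, ((low w S i + 1).choose 2 : ℤ) =
        ((∑ i ∈ mulP w, (low w S i + 1).choose 2 : ℕ) : ℤ) := by
      push_cast
      rfl
    rw [c1, c2]
    obtain ⟨z, hz⟩ : ∃ z, z = ∑ i ∈ mulP w, low w S i := ⟨_, rfl⟩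
    obtain ⟨B, hB⟩ : ∃ B, B = ∑ i ∈ mulP w, (low w S i + 1).choose 2 := ⟨_, rfl⟩
    obtain ⟨A, hA⟩ : ∃ A, A = ∑ i ∈ mulP w, (w i + 1).choose 2 := ⟨_, rfl⟩
    obtain ⟨X, hX⟩ : ∃ X, X = ∑ i ∈ mulP w, w i := ⟨_, rfl⟩
    obtain ⟨W, hW⟩ : ∃ W, W = ∑ i ∈ mulP w ∩ S, w i := ⟨_, rfl⟩
    obtain ⟨ce, hce⟩ : ∃ ce, ce = (e + 2).choose 2 := ⟨_, rfl⟩
    obtain ⟨cd, hcd⟩ : ∃ cd, cd = (e + 1 + 2).choose 2 := ⟨_, rfl⟩
    have hcz : ((e + 2).choose 2 : ℤ) = (ce : ℤ) := by rw [hce]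
    rw [hcz]
    rw [← hB, ← hW, ← hA] at e1
    rw [← hB, ← hce] at e2
    rw [← hX, ← hz] at e3
    rw [← hA, ← hX] at e4
    rw [← hcd, ← hce] at e5
    rw [← hce] at e6
    rw [← hA, ← hX, ← hcd] at h1
    rw [← hz, ← hB]
    have h3 : |(ce : ℤ) - (B : ℤ)| = (ce : ℤ) - B := abs_of_nonneg (by omega)
    rw [h3]
    refine low_arith (μ := (μ : ℤ)) (e := (e : ℤ)) (X := (X : ℤ)) (A := (A : ℤ)) (W := (W : ℤ))
      (cd := (cd : ℤ)) (ce := (ce : ℤ)) (Nat.cast_nonneg _) (Nat.cast_nonneg _)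
      (Nat.cast_nonneg _) (by exact_mod_cast e3) (by exact_mod_cast e4) (Nat.cast_nonneg _)
      (by exact_mod_cast e5) (by exact_mod_cast e6) (by omega) (by omega) (by exact_mod_cast h1)

/-- **Every vector of multiplicities**: smoothness of the general member. -/
theorem every_smooth {K : Type} [Field K] [CharZero K] {n d μ h : ℕ} {w : Fin n → ℕ}
    (hμ : ∀ i, w i ≤ μ)
    (h1 : 51000 * (μ + 2) ^ 2 + 4 * ∑ i ∈ mulP w, (w i + 1).choose 2 ≤
      (∑ i ∈ mulP w, w i) + 4 * (d + 2).choose 2)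
    (hh : (∑ i, (w i + 1).choose 2) + h = (d + 2).choose 2) (h0 : 0 < h)
    (h2 : (∀ i, w i < h) ∨ d + 1 ≤ h + ∑ i ∈ Finset.univ.filter (fun i => w i < h), w i) :
    ∃ F : MvPolynomial (Fin n × Fin 2) ℚ, F ≠ 0 ∧ ∀ P : Fin n → Fin 2 → K,
      aeval (fun ij : Fin n × Fin 2 => P ij.1 ij.2) F ≠ 0 →
      Module.finrank K ↥(forms w P d) = h ∧
        GeneralMember (forms w P d) (SmoothMember w P) := by
  classical
  have hd0 : 1 ≤ d := by
    rcases Nat.eq_zero_or_pos d with hd | hd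
    · exfalso
      subst hd
      have h3 : ∑ i ∈ mulP w, w i ≤ 4 * ∑ i ∈ mulP w, (w i + 1).choose 2 := by
        rw [Finset.mul_sum]
        refine Finset.sum_le_sum fun i _ => ?_
        have := ch2 (w i)
        nlinarith
      have h4 : (0 + 2).choose 2 = 1 := rfl
      rw [h4] at h1
      have h5 : 2 ^ 2 ≤ (μ + 2) ^ 2 := Nat.pow_le_pow_left (by omega) 2
      omega
    · exact hd
  obtain ⟨e, rfl⟩ : ∃ e, d = e + 1 := ⟨d - 1, by omega⟩
  set S := Finset.univ.filter (fun i => w i < h) with hS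
  have h3 : e + 1 + 1 ≤ h + ∑ i ∈ S, w i := by
    rcases h2 with h2 | h2
    · have h4 : S = Finset.univ := by
        rw [hS]
        exact Finset.filter_true_of_mem fun i _ => h2 i
      rw [h4]
      by_contra hcon
      push Not at hcon
      have h5 : ∑ i, w i ≤ e + 1 := by omega
      have h6 := Pool.Agent.W611.choose_le_sum w
      have h8 := Pool.Agent.W611.Aw_low w
      have h7 : (e + 1 + 2).choose 2 = (e + 2) + (e + 2).choose 2 := by
        rw [show e + 1 + 2 = (e + 2) + 1 from rfl, Nat.choose_succ_succ' (e + 2) 1,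
          Nat.choose_one_right]
      have h9 : (∑ i, w i + 1).choose 2 ≤ (e + 2).choose 2 :=
        Nat.choose_le_choose 2 (by omega)
      have h10 : (∑ i, w i + 1).choose 2 = (∑ i, w i) + (∑ i, w i).choose 2 := by
        rw [Nat.choose_succ_succ' (∑ i, w i) 1, Nat.choose_one_right]
      omega
    · exact h2
  have h4 := Aw_lowS w S
  have h7 : (e + 1 + 2).choose 2 = (e + 2) + (e + 2).choose 2 := by
    rw [show e + 1 + 2 = (e + 2) + 1 from rfl, Nat.choose_succ_succ' (e + 2) 1,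
      Nat.choose_one_right]
  have hl : (∑ i, (low w S i + 1).choose 2) ≤ (e + 2).choose 2 := by omega
  obtain ⟨F, hF, hF'⟩ := smooth_one (K := K) (w := w) (e := e) S
    (fun i hi => by
      by_contra hcon
      apply hi
      rw [hS, Finset.mem_filter]
      exact ⟨Finset.mem_univ _, by omega⟩)
    (by omega)
    (fun i hi => by
      rw [hS, Finset.mem_filter] at hi
      omega)
    hl (genExp_of_large (large_self hμ h1)) (genExp_of_large (large_low hμ S h1 hl))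
    (fun k _ => genExp_of_large (large_up hμ h1 k))
  refine ⟨F, hF, fun P hP => ?_⟩
  obtain ⟨g1, g2⟩ := hF' P hP
  refine ⟨?_, g2⟩
  rw [g1]
  omega

end Pool.Agent.J6H44.PS
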