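import Mathlib
import Pool.Agent.J6H44.PS.One

set_option autoImplicit false
set_option linter.unusedSectionVars false

/-!
# Permutation of the points
-/

namespace Pool.Agent.J6H44.PS

open MvPolynomial Pool.Agent.H248R5 Pool.Agent.H248R6

theorem expDim_perm {L : Type*} [Field L] {n : ℕ} {w : Fin n → ℕ} {P : Fin n → Fin 2 → L} {d : ℕ}
    (σ : Equiv.Perm (Fin n)) (h : H932R3.ExpDim L w (fun i => P (σ.symm i)) d) :
    H932R3.ExpDim L (fun i => w (σ i)) P d := by
  unfold H932R3.ExpDim at h ⊢
  have h1 : (⨅ i : Fin n, (Ideal.span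
      ({MvPolynomial.X 0 - MvPolynomial.C (P i 0) * MvPolynomial.X 2,
        MvPolynomial.X 1 - MvPolynomial.C (P i 1) * MvPolynomial.X 2} :
          Set (MvPolynomial (Fin 3) L))) ^ (w (σ i))) =
      ⨅ i : Fin n, (Ideal.span
      ({MvPolynomial.X 0 - MvPolynomial.C (P (σ.symm i) 0) * MvPolynomial.X 2,
        MvPolynomial.X 1 - MvPolynomial.C (P (σ.symm i) 1) * MvPolynomial.X 2} :
          Set (MvPolynomial (Fin 3) L))) ^ (w i) := by
    refine (Equiv.iInf_comp (g := fun i : Fin n => (Ideal.span
      ({MvPolynomial.X 0 - MvPolynomial.C (P i 0) * MvPolynomial.X 2,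
        MvPolynomial.X 1 - MvPolynomial.C (P i 1) * MvPolynomial.X 2} :
          Set (MvPolynomial (Fin 3) L))) ^ (w (σ i))) σ.symm).symm.trans ?_
    refine iInf_congr fun i => ?_
    simp only [Equiv.apply_symm_apply]
  have h2 : ∑ i, Nat.choose (w (σ i) + 1) 2 = ∑ i, Nat.choose (w i + 1) 2 :=
    Equiv.sum_comp σ fun i => Nat.choose (w i + 1) 2
  rw [h1, h2]
  exact h

theorem genExp_perm {n : ℕ} {w : Fin n → ℕ} {d : ℕ} (σ : Equiv.Perm (Fin n)) (h : GenExp w d) :
    GenExp (fun i => w (σ i)) d := by
  intro L _ _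
  obtain ⟨F, hF, hF'⟩ := h L
  let f : Fin n × Fin 2 → Fin n × Fin 2 := fun ij => (σ.symm ij.1, ij.2)
  have hf : Function.Injective f := by
    intro a b hab
    have h1 : σ.symm a.1 = σ.symm b.1 := by
      have h3 : (f a).1 = (f b).1 := by rw [hab]
      exact h3
    have h2 : a.2 = b.2 := by
      have h3 : (f a).2 = (f b).2 := by rw [hab]
      exact h3
    exact Prod.ext (σ.symm.injective h1) h2
  refine ⟨rename f F, fun h0 => hF ?_, fun P hP => expDim_perm σ (hF' _ ?_)⟩
  · exact rename_injective f hf (h0.trans (map_zero _).symm)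
  · rw [aeval_rename] at hP
    exact hP

/-- The first index with the same value. -/
theorem exists_first {n : ℕ} {v : Fin n → ℕ} (hv : Antitone v) (k : Fin n) :
    ∃ k' : Fin n, k' ≤ k ∧ v k' = v k ∧ Antitone (Function.update v k' (v k' + 1)) := by
  classical
  have hne : (Finset.univ.filter fun i => v i = v k).Nonempty :=
    ⟨k, Finset.mem_filter.2 ⟨Finset.mem_univ _, rfl⟩⟩
  set k' := (Finset.univ.filter fun i => v i = v k).min' hne with hk'
  have h1 : v k' = v k := (Finset.mem_filter.1 (Finset.min'_mem _ hne)).2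
  have h2 : ∀ i, i < k' → v i ≠ v k := by
    intro i hi h
    have h3 : k' ≤ i := Finset.min'_le _ i (Finset.mem_filter.2 ⟨Finset.mem_univ _, h⟩)
    exact absurd hi (not_lt.2 h3)
  have h0 : k' ≤ k := by
    have hmem : k ∈ Finset.univ.filter fun i => v i = v k :=
      Finset.mem_filter.2 ⟨Finset.mem_univ _, rfl⟩
    rw [hk']
    exact Finset.min'_le _ k hmem
  refine ⟨k', h0, h1, ?_⟩
  intro i j hij
  by_cases hj : j = k'
  · rw [hj, Function.update_self]
    by_cases hi : i = k'
    · rw [hi, Function.update_self]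
    · rw [Function.update_of_ne hi]
      have h3 : i < k' := lt_of_le_of_ne (hj ▸ hij) hi
      have h4 := h2 i h3
      have h5 := hv h3.le
      omega
  · rw [Function.update_of_ne hj]
    by_cases hi : i = k'
    · rw [hi, Function.update_self]
      have h3 := hv hij
      rw [hi] at h3
      omega
    · rw [Function.update_of_ne hi]
      exact hv hij

theorem update_swap {n : ℕ} {v : Fin n → ℕ} {k k' : Fin n} (h : v k' = v k) :
    (fun i => Function.update v k' (v k' + 1) (Equiv.swap k k' i)) =
      Function.update v k (v k + 1) := by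
  classical
  funext i
  by_cases hi : i = k
  · rw [hi, Equiv.swap_apply_left, Function.update_self, Function.update_self, h]
  · rw [Function.update_of_ne hi]
    by_cases hi' : i = k'
    · rw [hi', Equiv.swap_apply_right]
      have h2 : k ≠ k' := fun h3 => hi (hi'.trans h3.symm)
      rw [Function.update_of_ne h2, h]
    · rw [Equiv.swap_apply_of_ne_of_ne hi hi', Function.update_of_ne hi']

end Pool.Agent.J6H44.PS
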