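import Mathlib
import Pool.Agent.W609.T.Fin3
import Pool.Agent.J6H44.PS.Perm

set_option autoImplicit false
set_option linter.unusedSectionVars false

/-!
# Three arbitrary multiplicities: smooth general members
-/

namespace Pool.Agent.J6H44.PS

open MvPolynomial Pool.Agent.H248R5 Pool.Agent.H248R6

theorem fin_vals (r : ℕ) : ((0 : Fin (r + 4)) : ℕ) = 0 ∧ ((1 : Fin (r + 4)) : ℕ) = 1 ∧
    ((2 : Fin (r + 4)) : ℕ) = 2 ∧ ((3 : Fin (r + 4)) : ℕ) = 3 :=
  ⟨rfl, Nat.mod_eq_of_lt (show 1 < r + 4 by omega), Nat.mod_eq_of_lt (show 2 < r + 4 by omega),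
    Nat.mod_eq_of_lt (show 3 < r + 4 by omega)⟩

/-- The points other than the first three. -/
def tailS (r : ℕ) : Finset (Fin (r + 4)) := Finset.univ.filter fun i => 3 ≤ (i : ℕ)

theorem mem_tailS {r : ℕ} {i : Fin (r + 4)} : i ∈ tailS r ↔ 3 ≤ (i : ℕ) := by
  unfold tailS
  rw [Finset.mem_filter]
  exact ⟨fun h => h.2, fun h => ⟨Finset.mem_univ _, h⟩⟩

theorem split3 {r : ℕ} (f : Fin (r + 4) → ℕ) :
    ∑ i, f i = f 0 + f 1 + f 2 + ∑ i ∈ tailS r, f i := by
  classical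
  obtain ⟨n0, n1, n2, n3⟩ := fin_vals r
  have h1 : (Finset.univ : Finset (Fin (r + 4))) = insert 0 (insert 1 (insert 2 (tailS r))) := by
    ext i
    simp only [Finset.mem_univ, Finset.mem_insert, mem_tailS, true_iff]
    by_cases h0 : (i : ℕ) = 0
    · left; exact Fin.ext (by rw [n0]; exact h0)
    by_cases h1 : (i : ℕ) = 1
    · right; left; exact Fin.ext (by rw [n1]; exact h1)
    by_cases h2 : (i : ℕ) = 2
    · right; right; left; exact Fin.ext (by rw [n2]; exact h2)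
    right; right; right; omega
  have e2 : (2 : Fin (r + 4)) ∉ tailS r := by rw [mem_tailS, n2]; omega
  have e1 : (1 : Fin (r + 4)) ∉ insert (2 : Fin (r + 4)) (tailS r) := by
    rw [Finset.mem_insert, mem_tailS, Fin.ext_iff, n1, n2]; omega
  have e0 : (0 : Fin (r + 4)) ∉ insert (1 : Fin (r + 4)) (insert 2 (tailS r)) := by
    rw [Finset.mem_insert, Finset.mem_insert, mem_tailS, Fin.ext_iff, Fin.ext_iff, n0, n1, n2]
    omega
  rw [h1, Finset.sum_insert e0, Finset.sum_insert e1, Finset.sum_insert e2]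
  ring

/-- The conditions at the first three points. -/
def q3 {r : ℕ} (v : Fin (r + 4) → ℕ) : ℕ := v 0 * (v 0 + 1) + v 1 * (v 1 + 1) + v 2 * (v 2 + 1)

theorem genExp_big3 {r : ℕ} {v : Fin (r + 4) → ℕ} (hv : Antitone v) (h0 : 0 < v 3) {d : ℕ}
    (h1 : v 0 + v 1 + v 2 < d)
    (h2 : 131072 * (v 3 + 1) ^ 4 + q3 v ≤ (d + 1) * (d + 2)) : GenExp v d := by
  intro L _ _
  obtain ⟨F, hF, hF'⟩ := W609.T.big3 L hv h0
  exact ⟨F, hF, fun P hP => hF' P hP d h1 (Or.inl h2)⟩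

theorem pow4_aux (m : ℕ) : 131072 * (m + 1) ^ 4 + 2 * (m + 1) ≤ 131072 * (m + 2) ^ 4 := by
  have h1 : (m + 2) ^ 4 = (m + 1) ^ 4 + (4 * (m + 1) ^ 3 + 6 * (m + 1) ^ 2 + 4 * (m + 1) + 1) := by
    ring
  rw [h1]
  have h2 : m + 1 ≤ 4 * (m + 1) ^ 3 + 6 * (m + 1) ^ 2 + 4 * (m + 1) + 1 := by
    have : 0 ≤ 4 * (m + 1) ^ 3 + 6 * (m + 1) ^ 2 := Nat.zero_le _
    omega
  omega

theorem up3 {r : ℕ} {v : Fin (r + 4) → ℕ} (hv : Antitone v) (h0 : 0 < v 3) {k : Fin (r + 4)}
    (hk : 3 ≤ (k : ℕ)) {d : ℕ} (h1 : v 0 + v 1 + v 2 + 1 < d)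
    (h2 : 131072 * (v 3 + 2) ^ 4 + q3 v ≤ (d + 1) * (d + 2)) :
    GenExp (Function.update v k (v k + 1)) d := by
  classical
  obtain ⟨n0, n1, n2, n3⟩ := fin_vals r
  obtain ⟨k', hk', hvk, hanti⟩ := exists_first hv k
  rw [← update_swap hvk]
  refine genExp_perm (Equiv.swap k k') ?_
  have e01 : (0 : Fin (r + 4)) ≠ 1 := fun h => by rw [Fin.ext_iff, n0, n1] at h; omega
  have e02 : (0 : Fin (r + 4)) ≠ 2 := fun h => by rw [Fin.ext_iff, n0, n2] at h; omega
  have e03 : (0 : Fin (r + 4)) ≠ 3 := fun h => by rw [Fin.ext_iff, n0, n3] at h; omega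
  have e12 : (1 : Fin (r + 4)) ≠ 2 := fun h => by rw [Fin.ext_iff, n1, n2] at h; omega
  have e13 : (1 : Fin (r + 4)) ≠ 3 := fun h => by rw [Fin.ext_iff, n1, n3] at h; omega
  have e23 : (2 : Fin (r + 4)) ≠ 3 := fun h => by rw [Fin.ext_iff, n2, n3] at h; omega
  have hk3 : v k ≤ v 3 := hv (by rw [Fin.le_def, n3]; exact hk)
  have hp := pow4_aux (v 3)
  have hm1 : (v 3 + 1) ^ 4 ≤ (v 3 + 2) ^ 4 := Nat.pow_le_pow_left (by omega) 4
  by_cases c0 : k' = 0
  · subst c0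
    have g0 : Function.update v 0 (v 0 + 1) 0 = v 0 + 1 := Function.update_self _ _ _
    have g1 : Function.update v 0 (v 0 + 1) 1 = v 1 := Function.update_of_ne e01.symm _ _
    have g2 : Function.update v 0 (v 0 + 1) 2 = v 2 := Function.update_of_ne e02.symm _ _
    have g3 : Function.update v 0 (v 0 + 1) 3 = v 3 := Function.update_of_ne e03.symm _ _
    refine genExp_big3 hanti (by rw [g3]; exact h0) (by rw [g0, g1, g2]; omega) ?_
    unfold q3 at h2 ⊢
    rw [g0, g1, g2, g3]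
    have h3 : (v 0 + 1) * (v 0 + 1 + 1) = v 0 * (v 0 + 1) + 2 * (v 0 + 1) := by ring
    rw [h3]
    omega
  by_cases c1 : k' = 1
  · subst c1
    have g0 : Function.update v 1 (v 1 + 1) 0 = v 0 := Function.update_of_ne e01 _ _
    have g1 : Function.update v 1 (v 1 + 1) 1 = v 1 + 1 := Function.update_self _ _ _
    have g2 : Function.update v 1 (v 1 + 1) 2 = v 2 := Function.update_of_ne e12.symm _ _
    have g3 : Function.update v 1 (v 1 + 1) 3 = v 3 := Function.update_of_ne e13.symm _ _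
    refine genExp_big3 hanti (by rw [g3]; exact h0) (by rw [g0, g1, g2]; omega) ?_
    unfold q3 at h2 ⊢
    rw [g0, g1, g2, g3]
    have h3 : (v 1 + 1) * (v 1 + 1 + 1) = v 1 * (v 1 + 1) + 2 * (v 1 + 1) := by ring
    rw [h3]
    omega
  by_cases c2 : k' = 2
  · subst c2
    have g0 : Function.update v 2 (v 2 + 1) 0 = v 0 := Function.update_of_ne e02 _ _
    have g1 : Function.update v 2 (v 2 + 1) 1 = v 1 := Function.update_of_ne e12 _ _
    have g2 : Function.update v 2 (v 2 + 1) 2 = v 2 + 1 := Function.update_self _ _ _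
    have g3 : Function.update v 2 (v 2 + 1) 3 = v 3 := Function.update_of_ne e23.symm _ _
    refine genExp_big3 hanti (by rw [g3]; exact h0) (by rw [g0, g1, g2]; omega) ?_
    unfold q3 at h2 ⊢
    rw [g0, g1, g2, g3]
    have h3 : (v 2 + 1) * (v 2 + 1 + 1) = v 2 * (v 2 + 1) + 2 * (v 2 + 1) := by ring
    rw [h3]
    omega
  have g0 : Function.update v k' (v k' + 1) 0 = v 0 := Function.update_of_ne (Ne.symm c0) _ _
  have g1 : Function.update v k' (v k' + 1) 1 = v 1 := Function.update_of_ne (Ne.symm c1) _ _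
  have g2 : Function.update v k' (v k' + 1) 2 = v 2 := Function.update_of_ne (Ne.symm c2) _ _
  have g3 : Function.update v k' (v k' + 1) 3 ≤ v 3 + 1 := by
    by_cases c3 : k' = 3
    · subst c3
      rw [Function.update_self]
    · rw [Function.update_of_ne (Ne.symm c3)]
      exact Nat.le_succ _
  have g4 : v 3 ≤ Function.update v k' (v k' + 1) 3 := by
    by_cases c3 : k' = 3
    · subst c3
      rw [Function.update_self]
      exact Nat.le_succ _
    · rw [Function.update_of_ne (Ne.symm c3)]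
  refine genExp_big3 hanti (by omega) (by rw [g0, g1, g2]; omega) ?_
  unfold q3 at h2 ⊢
  rw [g0, g1, g2]
  have h3 : (Function.update v k' (v k' + 1) 3 + 1) ^ 4 ≤ (v 3 + 2) ^ 4 :=
    Nat.pow_le_pow_left (by omega) 4
  omega

/-- The room left by the first three points. -/
theorem room3 {a b c m e : ℤ} (hm : 0 ≤ m) (ha : b ≤ a) (hb : c ≤ b) (hc : m ≤ c)
    (he : a + b + c + 1 ≤ e) :
    2 * (e + 2) * (m + 2) + (a * (a + 1) + b * (b + 1) + c * (c + 1)) ≤ (e + 2) * (e + 3) := by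
  obtain ⟨t, ht⟩ : ∃ t, e = a + b + c + 1 + t := ⟨e - (a + b + c + 1), by ring⟩
  have ht0 : 0 ≤ t := by linarith
  subst ht
  have h1 : m * a ≤ b * a := by nlinarith
  have h2 : m * b ≤ c * b := by nlinarith
  have h3 : m * c ≤ a * c := by nlinarith
  have h4 : 0 ≤ t * (a + b + c + 3) := by nlinarith
  have h5 : 0 ≤ t * (a + b + c - 2 * m) := by
    apply mul_nonneg ht0
    linarith
  nlinarith

/-- The arithmetic of the lowered system. -/
theorem low3_arith {m e T Q U V : ℤ} (hm : 0 ≤ m) (he : 0 ≤ e) (hU0 : 0 ≤ U)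
    (hT : T = (e + 2) * (e + 3) - Q) (hroom : 2 * (e + 2) * (m + 2) ≤ T)
    (hbig : 131072 * (m + 2) ^ 4 ≤ T) :
    131072 * m ^ 4 + Q ≤ (e + 1) * (e + 2) ∧
    (U ≤ (m + 1) * V → U ≤ T → Q + U - 2 * V ≤ (e + 1) * (e + 2)) := by
  have h1 : (e + 1) * (e + 2) = (e + 2) * (e + 3) - 2 * (e + 2) := by ring
  refine ⟨?_, fun hU hUT => ?_⟩
  · have h2 : 131072 * m ^ 4 ≤ T - 2 * (e + 2) := by
      have h3 : (m + 1) * T ≤ (m + 2) * (T - 2 * (e + 2)) := by nlinarith
      have h4 : (m + 2) * (131072 * m ^ 4) ≤ (m + 1) * (131072 * (m + 2) ^ 4) := by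
        have h5 : (m + 1) * (m + 2) ^ 4 - (m + 2) * m ^ 4 =
          (m + 2) * ((m + 1) * (m + 2) ^ 3 - m ^ 4) := by ring
        have h6 : 0 ≤ (m + 1) * (m + 2) ^ 3 - m ^ 4 := by
          have : (m + 1) * (m + 2) ^ 3 - m ^ 4 = 7 * m ^ 3 + 18 * m ^ 2 + 20 * m + 8 := by ring
          rw [this]
          positivity
        have h7 : 0 ≤ (m + 2) * ((m + 1) * (m + 2) ^ 3 - m ^ 4) := by
          apply mul_nonneg (by linarith) h6
        linarith
      have h8 : (m + 1) * (131072 * (m + 2) ^ 4) ≤ (m + 1) * T := by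
        apply mul_le_mul_of_nonneg_left hbig (by linarith)
      have h9 : (m + 2) * (131072 * m ^ 4) ≤ (m + 2) * (T - 2 * (e + 2)) := by linarith
      exact le_of_mul_le_mul_left h9 (by linarith)
    rw [h1]
    linarith
  · -- `(m + 1) (U - 2 V) ≤ (m - 1) U ≤ (m + 1) (T - 2 (e + 2))`
    have h2 : (m + 1) * (U - 2 * V) ≤ (m + 1) * (T - 2 * (e + 2)) := by
      rcases le_or_gt 1 m with h3 | h3
      · have h4 : (m + 1) * (U - 2 * V) ≤ (m - 1) * U := by nlinarith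
        have h5 : (m - 1) * U ≤ (m - 1) * T := mul_le_mul_of_nonneg_left hUT (by linarith)
        have h6 : (m - 1) * T ≤ (m + 1) * (T - 2 * (e + 2)) := by nlinarith
        linarith
      · have h4 : m = 0 := by omega
        subst h4
        nlinarith
    have h3 := le_of_mul_le_mul_left h2 (by linarith)
    rw [h1]
    linarith

theorem low3 {r : ℕ} {v : Fin (r + 4) → ℕ} (hv : Antitone v) (h0 : 2 ≤ v 3) {e : ℕ}
    (h1 : v 0 + v 1 + v 2 + 1 < e + 1)
    (h2 : 131072 * (v 3 + 2) ^ 4 + q3 v ≤ (e + 2) * (e + 3))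
    (h3 : (∑ i, (v i + 1).choose 2) ≤ (e + 1 + 2).choose 2) :
    (∑ i, (low v (tailS r) i + 1).choose 2) ≤ (e + 2).choose 2 ∧ GenExp (low v (tailS r)) e := by
  classical
  obtain ⟨n0, n1, n2, n3⟩ := fin_vals r
  have l0 : low v (tailS r) 0 = v 0 := by
    unfold low
    rw [if_neg (by rw [mem_tailS, n0]; omega)]
  have l1 : low v (tailS r) 1 = v 1 := by
    unfold low
    rw [if_neg (by rw [mem_tailS, n1]; omega)]
  have l2 : low v (tailS r) 2 = v 2 := by
    unfold low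
    rw [if_neg (by rw [mem_tailS, n2]; omega)]
  have l3 : low v (tailS r) 3 = v 3 - 1 := by
    unfold low
    rw [if_pos (by rw [mem_tailS, n3])]
  have h32 : v 2 ≤ v 1 := hv (by rw [Fin.le_def, n1, n2]; omega)
  have h21 : v 1 ≤ v 0 := hv (by rw [Fin.le_def, n1, n0]; omega)
  have h33 : v 3 ≤ v 2 := hv (by rw [Fin.le_def, n3, n2]; omega)
  have hroom := room3 (a := v 0) (b := v 1) (c := v 2) (m := v 3) (e := e)
    (Nat.cast_nonneg _) (by exact_mod_cast h21) (by exact_mod_cast h32) (by exact_mod_cast h33)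
    (by exact_mod_cast (show v 0 + v 1 + v 2 + 1 ≤ e by omega))
  have hq : (q3 v : ℤ) = (v 0 : ℤ) * (v 0 + 1) + v 1 * (v 1 + 1) + v 2 * (v 2 + 1) := by
    unfold q3
    push_cast
    ring
  have hh2 : 131072 * ((v 3 : ℤ) + 2) ^ 4 + (q3 v : ℤ) ≤ ((e : ℤ) + 2) * (e + 3) := by
    exact_mod_cast h2
  obtain ⟨g1, g2⟩ := low3_arith (m := v 3) (e := e) (T := ((e : ℤ) + 2) * (e + 3) - (q3 v : ℤ))
    (Q := (q3 v : ℤ)) (U := ((∑ i ∈ tailS r, v i * (v i + 1) : ℕ) : ℤ))
    (V := ((∑ i ∈ tailS r, v i : ℕ) : ℤ)) (Nat.cast_nonneg _) (Nat.cast_nonneg _)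
    (Nat.cast_nonneg _) rfl
    (by rw [hq]; linarith) (by linarith)
  -- twice the number of conditions
  have hch : ∀ a : ℕ, 2 * (a + 1).choose 2 = a * (a + 1) := by
    intro a
    have h6 : 2 ∣ (a + 1) * a := by
      rw [mul_comm]
      exact (Nat.even_mul_succ_self a).two_dvd
    rw [Nat.choose_two_right, Nat.add_sub_cancel, Nat.mul_div_cancel' h6, mul_comm]
  have hsum : 2 * (∑ i, (v i + 1).choose 2) = q3 v + ∑ i ∈ tailS r, v i * (v i + 1) := by
    rw [Finset.mul_sum, split3 (fun i => 2 * (v i + 1).choose 2)]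
    unfold q3
    simp only [hch]
  have hU : ∑ i ∈ tailS r, v i * (v i + 1) ≤ (v 3 + 1) * ∑ i ∈ tailS r, v i := by
    rw [Finset.mul_sum]
    refine Finset.sum_le_sum fun i hi => ?_
    rw [mul_comm]
    refine Nat.mul_le_mul_right _ (Nat.succ_le_succ (hv ?_))
    rw [Fin.le_def, n3]
    exact mem_tailS.1 hi
  have h4 := Aw_lowS v (tailS r)
  have h5 : 2 * (e + 1 + 2).choose 2 = (e + 2) * (e + 3) := hch (e + 2)
  have h6 : 2 * (e + 2).choose 2 = (e + 1) * (e + 2) := hch (e + 1)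
  have h7 : (((∑ i ∈ tailS r, v i * (v i + 1) : ℕ) : ℤ)) ≤ ((e : ℤ) + 2) * (e + 3) - (q3 v : ℤ) := by
    have h8 : q3 v + ∑ i ∈ tailS r, v i * (v i + 1) ≤ (e + 2) * (e + 3) := by
      rw [← hsum, ← h5]
      omega
    have h9 : (q3 v : ℤ) + ((∑ i ∈ tailS r, v i * (v i + 1) : ℕ) : ℤ) ≤ ((e : ℤ) + 2) * (e + 3) := by
      exact_mod_cast h8
    linarith
  have h8 := g2 (by exact_mod_cast hU) h7
  refine ⟨?_, ?_⟩
  · have h9 : (q3 v + ∑ i ∈ tailS r, v i * (v i + 1) : ℕ) ≤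
        (e + 1) * (e + 2) + 2 * ∑ i ∈ tailS r, v i := by
      have h10 : ((q3 v : ℤ) + ((∑ i ∈ tailS r, v i * (v i + 1) : ℕ) : ℤ)) ≤
          ((e : ℤ) + 1) * (e + 2) + 2 * ((∑ i ∈ tailS r, v i : ℕ) : ℤ) := by linarith
      exact_mod_cast h10
    rw [← hsum, ← h6] at h9
    omega
  · refine genExp_big3 ?_ (by rw [l3]; omega) (by rw [l0, l1, l2]; omega) ?_
    · intro i j hij
      unfold low
      by_cases hi : i ∈ tailS r
      · have hj : j ∈ tailS r := by
          rw [mem_tailS] at hi ⊢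
          exact hi.trans hij
        rw [if_pos hi, if_pos hj]
        exact Nat.sub_le_sub_right (hv hij) 1
      · rw [if_neg hi]
        split_ifs
        · exact (Nat.sub_le _ _).trans (hv hij)
        · exact hv hij
    · unfold q3
      rw [l0, l1, l2, l3]
      have h9 : v 3 - 1 + 1 = v 3 := by omega
      rw [h9]
      have h10 : 131072 * (v 3) ^ 4 + q3 v ≤ (e + 1) * (e + 2) := by exact_mod_cast g1
      exact h10

/-- **Three arbitrary multiplicities.** -/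
theorem three_smooth {K : Type} [Field K] [CharZero K] {r : ℕ} {v : Fin (r + 4) → ℕ}
    (hv : Antitone v) (h0 : 2 ≤ v 3) :
    ∃ F : MvPolynomial (Fin (r + 4) × Fin 2) ℚ, F ≠ 0 ∧ ∀ P : Fin (r + 4) → Fin 2 → K,
      aeval (fun ij : Fin (r + 4) × Fin 2 => P ij.1 ij.2) F ≠ 0 →
        ∀ d : ℕ, v 0 + v 1 + v 2 + 1 < d →
          (131072 * (v 3 + 2) ^ 4 + (v 0 * (v 0 + 1) + v 1 * (v 1 + 1) + v 2 * (v 2 + 1)) ≤
              (d + 1) * (d + 2) ∨
            131072 * (v 3 + 2) ^ 4 ≤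
              ∑ i : Fin (r + 4), if 3 ≤ (i : ℕ) then (v i + 1).choose 2 else 0) →
          Module.finrank K ↥(forms v P d) = (d + 2).choose 2 - ∑ i, (v i + 1).choose 2 ∧
          ((∑ i, (v i + 1).choose 2) + v 3 + 1 ≤ (d + 2).choose 2 →
            GeneralMember (forms v P d) (SmoothMember v P)) := by
  classical
  obtain ⟨n0, n1, n2, n3⟩ := fin_vals r
  have hle3 : ∀ i ∈ tailS r, v i ≤ v 3 := fun i hi => hv (by
    rw [Fin.le_def, n3]
    exact mem_tailS.1 hi)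
  have hmem3 : (3 : Fin (r + 4)) ∈ tailS r := by rw [mem_tailS, n3]
  have hch : ∀ a : ℕ, 2 * (a + 1).choose 2 = a * (a + 1) := by
    intro a
    have h6 : 2 ∣ (a + 1) * a := by
      rw [mul_comm]
      exact (Nat.even_mul_succ_self a).two_dvd
    rw [Nat.choose_two_right, Nat.add_sub_cancel, Nat.mul_div_cancel' h6, mul_comm]
  have hsum : 2 * (∑ i, (v i + 1).choose 2) = q3 v + 2 * ∑ i ∈ tailS r, (v i + 1).choose 2 := by
    rw [Finset.mul_sum, split3 (fun i => 2 * (v i + 1).choose 2), Finset.mul_sum]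
    unfold q3
    simp only [hch]
  have hite : (∑ i : Fin (r + 4), if 3 ≤ (i : ℕ) then (v i + 1).choose 2 else 0) =
      ∑ i ∈ tailS r, (v i + 1).choose 2 := by
    unfold tailS
    rw [Finset.sum_filter]
  let G : ℕ → Prop := fun d => v 0 + v 1 + v 2 + 1 < d ∧
    (131072 * (v 3 + 2) ^ 4 + (v 0 * (v 0 + 1) + v 1 * (v 1 + 1) + v 2 * (v 2 + 1)) ≤
              (d + 1) * (d + 2) ∨
            131072 * (v 3 + 2) ^ 4 ≤
              ∑ i : Fin (r + 4), if 3 ≤ (i : ℕ) then (v i + 1).choose 2 else 0)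
  have hfirst : ∀ e, G (e + 1) →
      (∀ i ∈ tailS r, (∑ j, (v j + 1).choose 2) + v i + 1 ≤ (e + 1 + 2).choose 2) →
      131072 * (v 3 + 2) ^ 4 + q3 v ≤ (e + 2) * (e + 3) := by
    intro e hG hcond
    rcases hG.2 with h | h
    · exact h
    · rw [hite] at h
      have h1 := hcond 3 hmem3
      have h5 : 2 * (e + 1 + 2).choose 2 = (e + 2) * (e + 3) := hch (e + 2)
      omega
  obtain ⟨F, hF, hF'⟩ := smooth_all (K := K) v (tailS r)
    (fun i hi => by
      rw [mem_tailS] at hi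
      have h1 : v 3 ≤ v i := hv (by rw [Fin.le_def, n3]; omega)
      omega)
    ⟨3, hmem3⟩ G (fun d hd => by
      have := hd.1
      omega)
    (131072 * (v 3 + 2) ^ 4 + (v 0 * (v 0 + 1) + v 1 * (v 1 + 1) + v 2 * (v 2 + 1)) +
      (v 0 + v 1 + v 2 + 2))
    (fun d hd => by
      refine ⟨by omega, Or.inl ?_⟩
      have h1 : d ≤ (d + 1) * (d + 2) := by nlinarith
      omega)
    (fun L _ _ => by
      obtain ⟨F, hF, hF'⟩ := W609.T.big3 L hv (by omega)
      refine ⟨F, hF, fun P hP d hd => hF' P hP d (by have := hd.1; omega) ?_⟩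
      have hm1 : (v 3 + 1) ^ 4 ≤ (v 3 + 2) ^ 4 := Nat.pow_le_pow_left (by omega) 4
      rcases hd.2 with h | h
      · left
        omega
      · right
        omega)
    (fun e hG hcond => low3 hv h0 hG.1 (hfirst e hG hcond) (by
      have := hcond 3 hmem3
      omega))
    (fun k hk e hG hcond => up3 hv (by omega) (mem_tailS.1 hk) hG.1 (hfirst e hG hcond))
  refine ⟨F, hF, fun P hP d hd1 hd2 => ?_⟩
  obtain ⟨k1, k2⟩ := hF' P hP d ⟨hd1, hd2⟩
  refine ⟨k1, fun h => k2 fun i hi => ?_⟩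
  have := hle3 i hi
  omega

end Pool.Agent.J6H44.PS
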